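import Mathlib
import Pool.Agent.H11.PE.RDefs
import Pool.Agent.H11.PE.PDOF0
import Pool.Agent.H11.Selberg.Defs

/-!
# [H97 ICW Te] the sum over the primes from the Rankin-Selberg series (THEOREM IC, MP_8e9775_nt, chapter 6)

PROOF. `a` is multiplicative (`pd0_of a F hS 0`: field `mul`; `(n:ℂ)^(-(0*I)) = 1`) and `‖a n‖ ≤ C_ε n^ε`.
For `u` in `(0,1]` and a finite set of primes `P`:
`∑_n ‖a n‖^2 n^(-(1+u)) ≥ ∏_{p ∈ P} (1 + ‖a p‖^2 p^(-(1+u)))` (expand the product: distinct squarefree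
integers, multiplicativity), and `log (1 + x) ≥ x - x^2/2 ≥ x - x^2` for `x ≥ 0`, with
`∑_p (‖a p‖^2 p^(-(1+u)))^2 ≤ ∑_p C^4 p^(4ε - 2) < ∞`. So
`T a u ≤ log (∑ ‖a n‖^2 n^(-(1+u))) + K ≤ log (C u^(-2)) + K`. (Or quote the relation between the Dirichlet
series and the prime sum inside `equivalence`, Pool/Agent/H11/Selberg/Equiv.lean and the files it
imports: `tensor_log`, `Gc_c2`.)
-/

set_option autoImplicit false

namespace Pool.Agent.H97.ICW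

open Pool.Agent.H11.Selberg Pool.Agent.H11.PE

private theorem a_mul (a : ℕ → ℂ) (F : ℂ → ℂ) (hS : IsSelberg a F) (m n : ℕ) (hmn : Nat.Coprime m n) :
    a (m * n) = a m * a n := by
  have h := (pd0_of a F hS 0).mul m n hmn
  simpa using h

private theorem te_sum (a : ℕ → ℂ) (F : ℂ → ℂ) (hS : IsSelberg a F) (s : ℝ) (hs : 1 < s) :
    Summable fun n : ℕ => ‖a n‖ ^ 2 / (n : ℝ) ^ s := by
  obtain ⟨C, hC⟩ := hS.ramanujan ((s - 1) / 4) (by linarith)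
  have h1 : Summable fun n : ℕ => C ^ 2 * (1 / (n : ℝ) ^ (1 + (s - 1) / 2)) :=
    ((Real.summable_one_div_nat_rpow (p := 1 + (s - 1) / 2)).2 (by linarith)).mul_left (C ^ 2)
  refine Summable.of_nonneg_of_le (fun n => by positivity) (fun n => ?_) h1
  rcases Nat.eq_zero_or_pos n with h0 | h0
  · rw [h0, Nat.cast_zero, Real.zero_rpow (by linarith), Real.zero_rpow (by linarith), div_zero, div_zero, mul_zero]
  · have hn : (0 : ℝ) < n := by exact_mod_cast h0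
    have h2 : ‖a n‖ ^ 2 ≤ C ^ 2 * (n : ℝ) ^ ((s - 1) / 2) := by
      have h3 := pow_le_pow_left₀ (norm_nonneg _) (hC n h0) 2
      rw [mul_pow, ← Real.rpow_natCast ((n : ℝ) ^ ((s - 1) / 4)) 2, ← Real.rpow_mul hn.le] at h3
      rw [show (s - 1) / 2 = (s - 1) / 4 * ((2 : ℕ) : ℝ) by push_cast; ring]
      exact h3
    have h4 : 0 < (n : ℝ) ^ s := Real.rpow_pos_of_pos hn _
    rw [div_le_iff₀ h4]
    refine h2.trans (le_of_eq ?_)
    rw [mul_assoc]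
    congr 1
    rw [one_div, ← Real.rpow_neg hn.le, ← Real.rpow_add hn]
    congr 1
    ring

private theorem te_prod (a : ℕ → ℂ) (F : ℂ → ℂ) (hS : IsSelberg a F) (s : ℝ) (hs : 1 < s)
    (P : Finset Nat.Primes) :
    ∏ p ∈ P, (1 + ‖a p‖ ^ 2 / ((p : ℕ) : ℝ) ^ s) ≤ ∑' n : ℕ, ‖a n‖ ^ 2 / (n : ℝ) ^ s := by
  obtain ⟨f, hf⟩ : ∃ f : ℕ → ℝ, ∀ n, f n = ‖a n‖ ^ 2 / (n : ℝ) ^ s := ⟨_, fun _ => rfl⟩
  have hf0 : f 0 = 0 := by
    rw [hf, Nat.cast_zero, Real.zero_rpow (by linarith), div_zero]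
  have hf1 : f 1 = 1 := by
    rw [hf, hS.one, Nat.cast_one, Real.one_rpow, norm_one, one_pow, div_one]
  have hfn : ∀ n, 0 ≤ f n := by
    intro n
    rw [hf]
    positivity
  have hmul : ∀ {m n : ℕ}, Nat.Coprime m n → f (m * n) = f m * f n := by
    intro m n hmn
    rw [hf, hf, hf, a_mul a F hS m n hmn, norm_mul, mul_pow, Nat.cast_mul,
      Real.mul_rpow (Nat.cast_nonneg _) (Nat.cast_nonneg _), mul_div_mul_comm]
  have hsum : Summable f := by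
    have := te_sum a F hS s hs
    rwa [show (fun n : ℕ => ‖a n‖ ^ 2 / (n : ℝ) ^ s) = f from funext fun n => (hf n).symm] at this
  have hsumn : Summable fun n => ‖f n‖ := by
    rw [show (fun n => ‖f n‖) = f from funext fun n => Real.norm_of_nonneg (hfn n)]
    exact hsum
  have hprod := EulerProduct.eulerProduct_hasProd hf1 hmul hsumn hf0
  have hfac : ∀ p : Nat.Primes, 1 + f p ≤ ∑' e, f ((p : ℕ) ^ e) := by
    intro p
    have h1 : Summable fun e => f ((p : ℕ) ^ e) :=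
      hsum.comp_injective (Nat.pow_right_injective p.2.two_le)
    have h2 := h1.sum_le_tsum (Finset.range 2) fun e _ => hfn _
    rw [Finset.sum_range_succ, Finset.sum_range_one, pow_zero, pow_one, hf1] at h2
    exact h2
  have hfac1 : ∀ p : Nat.Primes, 1 ≤ ∑' e, f ((p : ℕ) ^ e) := fun p => by
    have := hfac p
    have := hfn p
    linarith
  have h1 : ∏ p ∈ P, ∑' e, f ((p : ℕ) ^ e) ≤ ∑' n, f n := by
    refine ge_of_tendsto hprod (Filter.eventually_atTop.2 ⟨P, fun Q hPQ => ?_⟩)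
    rw [← Finset.prod_sdiff hPQ]
    have h2 : 1 ≤ ∏ p ∈ Q \ P, ∑' e, f ((p : ℕ) ^ e) := by
      have h3 := Finset.prod_le_prod (s := Q \ P) (f := fun _ : Nat.Primes => (1 : ℝ))
        (g := fun p : Nat.Primes => ∑' e, f ((p : ℕ) ^ e)) (fun _ _ => zero_le_one) (fun p _ => hfac1 p)
      rwa [Finset.prod_const_one] at h3
    have h4 : 0 ≤ ∏ p ∈ P, ∑' e, f ((p : ℕ) ^ e) :=
      Finset.prod_nonneg fun p _ => zero_le_one.trans (hfac1 p)
    nlinarith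
  have h2 : ∏ p ∈ P, (1 + f p) ≤ ∏ p ∈ P, ∑' e, f ((p : ℕ) ^ e) :=
    Finset.prod_le_prod (fun p _ => by have := hfn p; linarith) fun p _ => hfac p
  have h3 := h2.trans h1
  simpa only [hf] using h3

theorem T_le (a : ℕ → ℂ) (F : ℂ → ℂ) (hS : IsSelberg a F) (C : ℝ) (hC : 0 < C)
    (h : ∀ s : ℝ, 1 < s → s ≤ 2 → ∑' n : ℕ, ‖a n‖ ^ 2 / (n : ℝ) ^ s ≤ C * (s - 1) ^ (-(2 : ℝ))) :
    ∃ K : ℝ, 0 < K ∧ ∀ u : ℝ, 0 < u → u ≤ 1 / 2 → T a u ≤ 2 * Real.log (1 / u) + K := by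
  obtain ⟨C1, hC1⟩ := hS.ramanujan (1 / 8) (by norm_num)
  have hs1 : Summable fun p : Nat.Primes => C1 ^ 4 * (1 / ((p : ℕ) : ℝ) ^ (3 / 2 : ℝ)) :=
    (((Real.summable_one_div_nat_rpow (p := 3 / 2)).2 (by norm_num)).comp_injective
      (Subtype.val_injective : Function.Injective fun p : Nat.Primes => (p : ℕ))).mul_left (C1 ^ 4)
  obtain ⟨K2, hK2⟩ : ∃ K2, K2 = ∑' p : Nat.Primes, C1 ^ 4 * (1 / ((p : ℕ) : ℝ) ^ (3 / 2 : ℝ)) := ⟨_, rfl⟩
  have hK2n : 0 ≤ K2 := by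
    rw [hK2]
    exact tsum_nonneg fun p => by positivity
  refine ⟨|Real.log C| + K2 + 1, by positivity, ?_⟩
  intro u hu hu2
  obtain ⟨x, hx⟩ : ∃ x : Nat.Primes → ℝ, ∀ p, x p = ‖a (p : ℕ)‖ ^ 2 / ((p : ℕ) : ℝ) ^ (1 + u) := ⟨_, fun _ => rfl⟩
  have hxn : ∀ p, 0 ≤ x p := by
    intro p
    rw [hx]
    positivity
  have hxT : T a u = ∑' p : Nat.Primes, x p := by
    unfold T
    refine tsum_congr fun p => ?_
    rw [hx, Real.rpow_neg (Nat.cast_nonneg _), div_eq_mul_inv]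
  have hx2 : ∀ p, x p ^ 2 ≤ C1 ^ 4 * (1 / ((p : ℕ) : ℝ) ^ (3 / 2 : ℝ)) := by
    intro p
    have hp : (0 : ℝ) < ((p : ℕ) : ℝ) := by exact_mod_cast p.2.pos
    have hp1 : (1 : ℝ) ≤ ((p : ℕ) : ℝ) := by exact_mod_cast p.2.one_lt.le
    have h1 := hC1 p p.2.one_lt.le
    have h2 : ‖a (p : ℕ)‖ ^ 4 ≤ C1 ^ 4 * ((p : ℕ) : ℝ) ^ (1 / 2 : ℝ) := by
      have h3 := pow_le_pow_left₀ (norm_nonneg _) h1 4
      rw [mul_pow, ← Real.rpow_natCast (((p : ℕ) : ℝ) ^ (1 / 8 : ℝ)) 4, ← Real.rpow_mul hp.le] at h3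
      rw [show (1 / 2 : ℝ) = 1 / 8 * ((4 : ℕ) : ℝ) by norm_num]
      exact h3
    have h4 : ((p : ℕ) : ℝ) ^ (2 : ℝ) ≤ (((p : ℕ) : ℝ) ^ (1 + u)) ^ 2 := by
      rw [← Real.rpow_natCast (((p : ℕ) : ℝ) ^ (1 + u)) 2, ← Real.rpow_mul hp.le]
      refine Real.rpow_le_rpow_of_exponent_le hp1 ?_
      push_cast
      linarith
    have h5 : (0 : ℝ) < ((p : ℕ) : ℝ) ^ (2 : ℝ) := Real.rpow_pos_of_pos hp _
    rw [hx, div_pow, ← pow_mul]
    calc ‖a (p : ℕ)‖ ^ (2 * 2) / (((p : ℕ) : ℝ) ^ (1 + u)) ^ 2 ≤ ‖a (p : ℕ)‖ ^ 4 / ((p : ℕ) : ℝ) ^ (2 : ℝ) :=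
          div_le_div_of_nonneg_left (by positivity) h5 h4
      _ ≤ (C1 ^ 4 * ((p : ℕ) : ℝ) ^ (1 / 2 : ℝ)) / ((p : ℕ) : ℝ) ^ (2 : ℝ) :=
          div_le_div_of_nonneg_right h2 h5.le
      _ = C1 ^ 4 * (1 / ((p : ℕ) : ℝ) ^ (3 / 2 : ℝ)) := by
          rw [mul_div_assoc, ← Real.rpow_sub hp]
          congr 1
          rw [eq_div_iff (Real.rpow_pos_of_pos hp _).ne', ← Real.rpow_add hp]
          norm_num
  have hfin : ∀ P : Finset Nat.Primes, ∑ p ∈ P, x p ≤ 2 * Real.log (1 / u) + (|Real.log C| + K2 + 1) := by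
    intro P
    have h1 := (te_prod a F hS (1 + u) (by linarith) P).trans (h (1 + u) (by linarith) (by linarith))
    have h1' : ∏ p ∈ P, (1 + x p) ≤ C * (1 + u - 1) ^ (-(2 : ℝ)) := by
      simpa only [hx] using h1
    have h2 : 0 < ∏ p ∈ P, (1 + x p) := Finset.prod_pos fun p _ => by have := hxn p; linarith
    have h3 := Real.log_le_log h2 h1'
    rw [Real.log_prod (fun p _ => by have := hxn p; linarith), add_sub_cancel_left,
      Real.log_mul hC.ne' (Real.rpow_pos_of_pos hu _).ne', Real.log_rpow hu] at h3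
    have h4 : ∑ p ∈ P, (x p - x p ^ 2) ≤ ∑ p ∈ P, Real.log (1 + x p) := by
      refine Finset.sum_le_sum fun p _ => ?_
      have h5 := hxn p
      have h6 := Real.one_sub_inv_le_log_of_pos (x := 1 + x p) (by linarith)
      refine le_trans ?_ h6
      have h7 : (1 + x p)⁻¹ ≤ 1 - x p + x p ^ 2 := by
        rw [inv_le_iff_one_le_mul₀ (by linarith)]
        nlinarith [pow_nonneg h5 3]
      linarith
    have h5 : ∑ p ∈ P, x p ^ 2 ≤ K2 := by
      rw [hK2]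
      exact (Finset.sum_le_sum fun p _ => hx2 p).trans (hs1.sum_le_tsum P fun p _ => by positivity)
    rw [Finset.sum_sub_distrib] at h4
    have h6 : Real.log (1 / u) = - Real.log u := by
      rw [one_div, Real.log_inv]
    have h7 := le_abs_self (Real.log C)
    rw [h6]
    linarith
  rw [hxT]
  exact (summable_of_sum_le hxn hfin).tsum_le_of_sum_le hfin

end Pool.Agent.H97.ICW
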