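import Mathlib

/-!
# [H97 ICW Hi] MATHLIB ONLY: a function dominated by the heights has a mean of size log(1/y)/y
(THEOREM IC, MP_8e9775_nt, chapter 6)

PROOF. If `c ≥ 1` then `c^2 y^2 ≤ 2y`, so `c ≤ sqrt (2/y)`, and `(c x + d)^2 ≤ 2 y ≤ 2` with `0 ≤ x ≤ 1`, so
`|d| ≤ c + 2`. Hence for `x` in `[0,1]`
`φ x ≤ C (1 + ∑_{1 ≤ c ≤ √(2/y)} ∑_{|d| ≤ c+2} 1 / ((c x + d)^2 + c^2 y^2))` (the term `1` is for `c = 0`, where
`d^2 = 1` and `φ x ≤ C`). Integrate over `[0,1]` (enlarge to the real line or use arctan):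
`∫ dx / ((c x + d)^2 + c^2 y^2) ≤ π / (c^2 y)` (substitution; `integral_univ_inv_one_add_sq` = π, or a
primitive with `arctan`, of total variation `≤ π`). So
`∫ φ ≤ C (1 + ∑_c (2c + 5) π/(c^2 y)) ≤ C (1 + (7 π / y) ∑_{c ≤ √(2/y)} 1/c) ≤
C (1 + (7π/y)(1 + log √(2/y)))` (`harmonic_le_one_add_log`), and `1 ≤ 1/y`, `log √(2/y) ≤ 1 + log (1/y)`:
`K = 100` is enough.
-/

set_option autoImplicit false

namespace Pool.Agent.H97.ICW

open MeasureTheory

private theorem den_pos (c : ℕ) (hc : 1 ≤ c) (d : ℤ) (y : ℝ) (hy : 0 < y) (x : ℝ) :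
    0 < ((c : ℝ) * x + d) ^ 2 + (c : ℝ) ^ 2 * y ^ 2 := by
  have hc0 : (0 : ℝ) < c := by exact_mod_cast hc
  positivity

private theorem term_cont (c : ℕ) (hc : 1 ≤ c) (d : ℤ) (y : ℝ) (hy : 0 < y) :
    Continuous fun x : ℝ => 1 / (((c : ℝ) * x + d) ^ 2 + (c : ℝ) ^ 2 * y ^ 2) :=
  continuous_const.div (by fun_prop) fun x => (den_pos c hc d y hy x).ne'

private theorem one_int (c : ℕ) (hc : 1 ≤ c) (d : ℤ) (y : ℝ) (hy : 0 < y) :
    ∫ x in (0 : ℝ)..1, 1 / (((c : ℝ) * x + d) ^ 2 + (c : ℝ) ^ 2 * y ^ 2) ≤ Real.pi / ((c : ℝ) ^ 2 * y) := by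
  have hc0 : (0 : ℝ) < c := by exact_mod_cast hc
  have hd : ∀ x : ℝ, HasDerivAt (fun x => (1 / ((c : ℝ) ^ 2 * y)) * Real.arctan ((x + d / c) / y))
      (1 / (((c : ℝ) * x + d) ^ 2 + (c : ℝ) ^ 2 * y ^ 2)) x := by
    intro x
    have h1 : HasDerivAt (fun x : ℝ => (x + d / c) / y) (1 / y) x :=
      ((hasDerivAt_id x).add_const _).div_const _
    refine ((h1.arctan).const_mul (1 / ((c : ℝ) ^ 2 * y))).congr_deriv ?_
    have h2 := (den_pos c hc d y hy x).ne'
    have h3 : 1 + ((x + d / c) / y) ^ 2 ≠ 0 := by positivity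
    rw [eq_div_iff h2]
    field_simp
    ring
  have h1 : ∫ x in (0 : ℝ)..1, 1 / (((c : ℝ) * x + d) ^ 2 + (c : ℝ) ^ 2 * y ^ 2) =
      (1 / ((c : ℝ) ^ 2 * y)) * Real.arctan ((1 + d / c) / y) -
      (1 / ((c : ℝ) ^ 2 * y)) * Real.arctan ((0 + d / c) / y) :=
    intervalIntegral.integral_eq_sub_of_hasDerivAt (fun x _ => hd x)
      ((term_cont c hc d y hy).intervalIntegrable _ _)
  rw [h1, ← mul_sub]
  have h2 := Real.arctan_lt_pi_div_two ((1 + d / c) / y)
  have h3 := Real.neg_pi_div_two_lt_arctan ((0 + d / c) / y)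
  have h4 : 0 < (c : ℝ) ^ 2 * y := by positivity
  rw [div_mul_eq_mul_div, one_mul]
  exact div_le_div_of_nonneg_right (by linarith) h4.le

private theorem row_int (c : ℕ) (hc : 1 ≤ c) (y : ℝ) (hy : 0 < y) :
    ∑ d ∈ Finset.Icc (-((c : ℤ) + 2)) (c + 2),
      ∫ x in (0 : ℝ)..1, 1 / (((c : ℝ) * x + d) ^ 2 + (c : ℝ) ^ 2 * y ^ 2) ≤
        7 * Real.pi / y * (1 / (c : ℝ)) := by
  have hc0 : (0 : ℝ) < c := by exact_mod_cast hc
  have hc1 : (1 : ℝ) ≤ c := by exact_mod_cast hc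
  have h1 := Finset.sum_le_card_nsmul (Finset.Icc (-((c : ℤ) + 2)) (c + 2))
    (fun d => ∫ x in (0 : ℝ)..1, 1 / (((c : ℝ) * x + d) ^ 2 + (c : ℝ) ^ 2 * y ^ 2))
    (Real.pi / ((c : ℝ) ^ 2 * y)) (fun d _ => one_int c hc d y hy)
  refine h1.trans ?_
  have h2 : (Finset.Icc (-((c : ℤ) + 2)) (c + 2)).card = 2 * c + 5 := by
    rw [Int.card_Icc]
    omega
  rw [h2, nsmul_eq_mul]
  push_cast
  have hpi := Real.pi_pos
  have h3 : (2 * (c : ℝ) + 5) ≤ 7 * c := by linarith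
  calc (2 * (c : ℝ) + 5) * (Real.pi / ((c : ℝ) ^ 2 * y)) ≤ (7 * c) * (Real.pi / ((c : ℝ) ^ 2 * y)) :=
        mul_le_mul_of_nonneg_right h3 (by positivity)
    _ = 7 * Real.pi / y * (1 / (c : ℝ)) := by
        field_simp

theorem hi (C y : ℝ) (φ : ℝ → ℝ) (hC : 0 ≤ C) (hy : 0 < y) (hy1 : y ≤ 1)
    (hφ : IntervalIntegrable φ volume 0 1)
    (h : ∀ x : ℝ, 0 ≤ x → x ≤ 1 → ∃ (c : ℕ) (d : ℤ), (c = 0 → d ^ 2 = 1) ∧
      ((c : ℝ) * x + d) ^ 2 + (c : ℝ) ^ 2 * y ^ 2 ≤ 2 * y ∧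
      φ x * (((c : ℝ) * x + d) ^ 2 + (c : ℝ) ^ 2 * y ^ 2) ≤ C) :
    ∫ x in (0 : ℝ)..1, φ x ≤ 100 * C * (1 + Real.log (1 / y)) / y := by
  obtain ⟨N, hN⟩ : ∃ N, N = ⌊Real.sqrt (2 / y)⌋₊ := ⟨_, rfl⟩
  obtain ⟨t, ht⟩ : ∃ t : ℕ → ℤ → ℝ → ℝ, ∀ c d x, t c d x = 1 / (((c : ℝ) * x + d) ^ 2 + (c : ℝ) ^ 2 * y ^ 2) :=
    ⟨_, fun _ _ _ => rfl⟩
  have htn : ∀ c d x, 0 ≤ t c d x := by
    intro c d x
    rw [ht]
    positivity
  have htc : ∀ c, 1 ≤ c → ∀ d, Continuous (t c d) := by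
    intro c hc d
    have := term_cont c hc d y hy
    rwa [show (fun x : ℝ => 1 / (((c : ℝ) * x + d) ^ 2 + (c : ℝ) ^ 2 * y ^ 2)) = t c d from
      funext fun x => (ht c d x).symm] at this
  obtain ⟨S, hS⟩ : ∃ S : ℝ → ℝ, ∀ x, S x = ∑ c ∈ Finset.Icc 1 N, ∑ d ∈ Finset.Icc (-((c : ℤ) + 2)) (c + 2),
      t c d x := ⟨_, fun _ => rfl⟩
  have hSc : Continuous S := by
    rw [show S = fun x => ∑ c ∈ Finset.Icc 1 N, ∑ d ∈ Finset.Icc (-((c : ℤ) + 2)) (c + 2), t c d x from funext hS]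
    exact continuous_finsetSum _ fun c hc => continuous_finsetSum _ fun d _ => htc c (Finset.mem_Icc.1 hc).1 d
  have hle : ∀ x ∈ Set.Icc (0 : ℝ) 1, φ x ≤ C * (1 + S x) := by
    rintro x ⟨hx0, hx1⟩
    have hSn : 0 ≤ S x := by
      rw [hS]
      exact Finset.sum_nonneg fun c _ => Finset.sum_nonneg fun d _ => htn c d x
    obtain ⟨c, d, h1, h2, h3⟩ := h x hx0 hx1
    rcases Nat.eq_zero_or_pos c with hc | hc
    · have h4 := h1 hc
      have h5 : ((d : ℝ)) ^ 2 = 1 := by exact_mod_cast h4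
      rw [hc] at h3
      rw [Nat.cast_zero, zero_mul, zero_add, h5] at h3
      have h6 : φ x ≤ C := by linarith
      nlinarith
    · have hc0 : (0 : ℝ) < c := by exact_mod_cast hc
      have hD := den_pos c hc d y hy x
      have h4 : φ x ≤ C * t c d x := by
        rw [ht, mul_one_div, le_div_iff₀ hD]
        exact h3
      have h5 : t c d x ≤ S x := by
        rw [hS]
        have hcN : c ∈ Finset.Icc 1 N := by
          rw [Finset.mem_Icc]
          refine ⟨hc, ?_⟩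
          rw [hN]
          refine Nat.le_floor (Real.le_sqrt_of_sq_le ?_)
          rw [le_div_iff₀ hy]
          have h6 : (c : ℝ) ^ 2 * y ^ 2 ≤ 2 * y := by nlinarith [sq_nonneg ((c : ℝ) * x + d)]
          have h7 : (c : ℝ) ^ 2 * y * y ≤ 2 * y := by nlinarith
          exact le_of_mul_le_mul_right h7 hy
        have hd : d ∈ Finset.Icc (-((c : ℤ) + 2)) (c + 2) := by
          have h6 : ((c : ℝ) * x + d) ^ 2 ≤ 2 := by
            have : 0 ≤ (c : ℝ) ^ 2 * y ^ 2 := by positivity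
            linarith
          have h7 : |(c : ℝ) * x + d| ≤ 2 := abs_le_of_sq_le_sq (by linarith) (by norm_num)
          rw [abs_le] at h7
          have h8 : (c : ℝ) * x ≤ c := by nlinarith
          have h9 : 0 ≤ (c : ℝ) * x := by positivity
          rw [Finset.mem_Icc]
          constructor
          · have : (-((c : ℝ) + 2)) ≤ d := by linarith
            exact_mod_cast this
          · have : (d : ℝ) ≤ c + 2 := by linarith
            exact_mod_cast this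
        refine (Finset.single_le_sum (f := fun d => t c d x) (fun d _ => htn c d x) hd).trans ?_
        exact Finset.single_le_sum (f := fun c : ℕ => ∑ d ∈ Finset.Icc (-((c : ℤ) + 2)) (c + 2), t c d x)
          (fun c _ => Finset.sum_nonneg fun d _ => htn c d x) hcN
      calc φ x ≤ C * t c d x := h4
        _ ≤ C * S x := mul_le_mul_of_nonneg_left h5 hC
        _ ≤ C * (1 + S x) := by nlinarith
  have hInt : ∫ x in (0 : ℝ)..1, φ x ≤ ∫ x in (0 : ℝ)..1, C * (1 + S x) :=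
    intervalIntegral.integral_mono_on zero_le_one hφ
      ((continuous_const.mul (continuous_const.add hSc)).intervalIntegrable _ _) hle
  have hSI : ∫ x in (0 : ℝ)..1, S x ≤ 7 * Real.pi / y * (1 + Real.log N) := by
    have e1 : ∫ x in (0 : ℝ)..1, S x = ∑ c ∈ Finset.Icc 1 N, ∑ d ∈ Finset.Icc (-((c : ℤ) + 2)) (c + 2),
        ∫ x in (0 : ℝ)..1, t c d x := by
      rw [show S = fun x => ∑ c ∈ Finset.Icc 1 N, ∑ d ∈ Finset.Icc (-((c : ℤ) + 2)) (c + 2), t c d x from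
        funext hS, intervalIntegral.integral_finsetSum]
      · refine Finset.sum_congr rfl fun c hc => ?_
        rw [intervalIntegral.integral_finsetSum]
        exact fun d _ => (htc c (Finset.mem_Icc.1 hc).1 d).intervalIntegrable _ _
      · exact fun c hc => (continuous_finsetSum _ fun d _ =>
          htc c (Finset.mem_Icc.1 hc).1 d).intervalIntegrable _ _
    rw [e1]
    have e2 : ∀ c ∈ Finset.Icc 1 N, ∑ d ∈ Finset.Icc (-((c : ℤ) + 2)) (c + 2),
        ∫ x in (0 : ℝ)..1, t c d x ≤ 7 * Real.pi / y * (1 / (c : ℝ)) := by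
      intro c hc
      have := row_int c (Finset.mem_Icc.1 hc).1 y hy
      simpa only [ht] using this
    refine (Finset.sum_le_sum e2).trans ?_
    rw [← Finset.mul_sum]
    have hpi := Real.pi_pos
    refine mul_le_mul_of_nonneg_left ?_ (by positivity)
    have e3 := harmonic_le_one_add_log N
    have e4 : ((harmonic N : ℚ) : ℝ) = ∑ c ∈ Finset.Icc 1 N, 1 / (c : ℝ) := by
      rw [harmonic_eq_sum_Icc]
      push_cast
      exact Finset.sum_congr rfl fun c _ => (one_div _).symm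
    rw [← e4]
    exact e3
  have hL : 0 ≤ Real.log (1 / y) := Real.log_nonneg (by rw [le_div_iff₀ hy]; linarith)
  have hN1 : Real.log N ≤ 1 + Real.log (1 / y) := by
    rcases Nat.eq_zero_or_pos N with h0 | h0
    · rw [h0, Nat.cast_zero, Real.log_zero]
      linarith
    · have h1 : (N : ℝ) ≤ Real.sqrt (2 / y) := by
        rw [hN]
        exact Nat.floor_le (Real.sqrt_nonneg _)
      have h2 : Real.sqrt (2 / y) ≤ 2 / y := by
        have h3 : 1 ≤ 2 / y := by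
          rw [le_div_iff₀ hy]
          linarith
        rw [Real.sqrt_le_left (by linarith)]
        nlinarith
      have h3 : Real.log N ≤ Real.log (2 / y) :=
        Real.log_le_log (by exact_mod_cast h0) (h1.trans h2)
      have h4 : Real.log (2 / y) = Real.log 2 + Real.log (1 / y) := by
        rw [← Real.log_mul two_ne_zero (by positivity), mul_one_div]
      have h5 : Real.log 2 ≤ 1 := by
        have := Real.log_le_sub_one_of_pos (x := 2) two_pos
        linarith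
      linarith
  refine hInt.trans ?_
  rw [intervalIntegral.integral_const_mul, intervalIntegral.integral_add (by simp)
    (hSc.intervalIntegrable _ _), intervalIntegral.integral_const]
  have e5 : ((1 : ℝ) - 0) • (1 : ℝ) = 1 := by norm_num
  rw [e5]
  have hpi := Real.pi_pos
  have hpi4 := Real.pi_le_four
  have hy' : 1 ≤ 1 / y := by
    rw [le_div_iff₀ hy]
    linarith
  have e6 : 7 * Real.pi / y * (1 + Real.log N) ≤ 28 * (1 / y) * (2 + Real.log (1 / y)) := by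
    have h1 : 7 * Real.pi / y ≤ 28 * (1 / y) := by
      rw [mul_one_div]
      exact div_le_div_of_nonneg_right (by linarith) hy.le
    have h2 : 1 + Real.log N ≤ 2 + Real.log (1 / y) := by linarith
    have h3 : 0 ≤ 28 * (1 / y) := by positivity
    have h4 : 0 ≤ 1 + Real.log N := by
      have := Real.log_natCast_nonneg N
      linarith
    exact mul_le_mul h1 h2 h4 h3
  have e7 : 100 * C * (1 + Real.log (1 / y)) / y = C * (100 * (1 / y) * (1 + Real.log (1 / y))) := by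
    field_simp
  rw [e7]
  refine mul_le_mul_of_nonneg_left ?_ hC
  nlinarith [mul_nonneg (by positivity : (0 : ℝ) ≤ 1 / y) hL]

end Pool.Agent.H97.ICW
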