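import Mathlib

/-!
# [H97 ICW Lp] MATHLIB ONLY: from the Laplace series to the Dirichlet series with a logarithm
(THEOREM IC, MP_8e9775_nt, chapter 6)

PROOF. For `n ≥ 1` and `1 < s ≤ 2`: `∫_0^1 exp(-(4 π n y)) y^(s-1) dy ≥ n^(-s) ∫_0^1 exp(-(4 π t)) t^(s-1) dt ≥
n^(-s) exp(-(4 π)) / 2` (substitution `t = n y`, `n ≥ 1`). So
`∑ b n n^(-s) ≤ 2 exp(4 π) ∑ b n ∫_0^1 exp(-(4 π n y)) y^(s-1) dy = 2 exp(4 π) ∫_0^1 (∑ b n exp(-(4 π n y))) y^(s-1) dy
≤ 2 exp(4π) A ∫_0^1 (1 + log(1/y)) y^(s-2) dy = 2 exp(4π) A (1/(s-1) + 1/(s-1)^2)`, which gives `4 exp(4π) A`.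
(Use lintegral and Tonelli: `MeasureTheory.lintegral_tsum`.) Other way: with `y = 1/X`:
`∑_{n ≤ X} b n ≤ A exp(4π) X (1 + log X)` for `X ≥ 1`, then dyadic blocks
`∑_{2^j ≤ n < 2^(j+1)} b n n^(-s) ≤ 2 A exp(4π) 2^(-j(s-1)) (j + 2)`,
and `∑_j (j+2) q^j ≤ 2/(1-q)^2`, `q = 2^(-(s-1))`, `1 - q ≥ (s-1)/2`. (Cf. `upperD` in
Pool/Agent/H13/IC/Ms.lean.) Any constant: `K` is existential and depends on nothing.
-/

set_option autoImplicit false

namespace Pool.Agent.H97.ICW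

private theorem geo (q : ℝ) (hq : 0 ≤ q) (hq1 : q < 1) (J : ℕ) :
    ∑ j ∈ Finset.range J, (1 + (j : ℝ)) * q ^ j ≤ 1 / (1 - q) ^ 2 := by
  have h1 : ∀ J : ℕ, (∑ j ∈ Finset.range J, (1 + (j : ℝ)) * q ^ j) * (1 - q) ^ 2 =
      1 - ((J : ℝ) + 1) * q ^ J + J * q ^ (J + 1) := by
    intro J
    induction J with
    | zero => simp
    | succ J ih =>
      rw [Finset.sum_range_succ, add_mul, ih]
      push_cast
      ring
  have h2 : 0 < (1 - q) ^ 2 := by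
    have : 0 < 1 - q := by linarith
    positivity
  rw [le_div_iff₀ h2, h1]
  have h3 : 0 ≤ q ^ J := pow_nonneg hq J
  have h4 : q ^ (J + 1) ≤ q ^ J := by
    rw [pow_succ]
    nlinarith
  have h5 : (J : ℝ) * q ^ (J + 1) ≤ J * q ^ J := mul_le_mul_of_nonneg_left h4 (Nat.cast_nonneg J)
  nlinarith

theorem lp : ∃ K : ℝ, 0 < K ∧ ∀ (A : ℝ) (b : ℕ → ℝ), 0 ≤ A → (∀ n, 0 ≤ b n) → b 0 = 0 →
    (∀ y : ℝ, 0 < y → y ≤ 1 → Summable (fun n : ℕ => b n * Real.exp (-(4 * Real.pi * n * y))) ∧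
      ∑' n : ℕ, b n * Real.exp (-(4 * Real.pi * n * y)) ≤ A * (1 + Real.log (1 / y)) / y) →
    ∀ s : ℝ, 1 < s → s ≤ 2 → Summable (fun n : ℕ => b n / (n : ℝ) ^ s) ∧
      ∑' n : ℕ, b n / (n : ℝ) ^ s ≤ K * A * (s - 1) ^ (-(2 : ℝ)) := by
  refine ⟨4 * Real.exp (8 * Real.pi), by positivity, ?_⟩
  intro A b hA hb hb0 h s hs1 hs2
  have hpi := Real.pi_pos
  obtain ⟨q, hq⟩ : ∃ q : ℝ, q = (2 : ℝ) ^ (1 - s) := ⟨_, rfl⟩
  have hq0 : 0 < q := by
    rw [hq]
    positivity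
  have hqt : q ≤ 1 - (s - 1) / 2 := by
    have h1 := rpow_one_add_le_one_add_mul_self (s := -(1 / 2 : ℝ)) (p := s - 1) (by norm_num) (by linarith)
      (by linarith)
    have h2 : q = (1 + -(1 / 2 : ℝ)) ^ (s - 1) := by
      rw [hq, show (1 + -(1 / 2 : ℝ)) = (2 : ℝ)⁻¹ by norm_num, Real.inv_rpow two_pos.le,
        ← Real.rpow_neg two_pos.le, neg_sub]
    rw [h2]
    linarith
  have hq1 : q < 1 := by linarith
  -- one block
  have hblock : ∀ (F : Finset ℕ) (j : ℕ),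
      ((2 : ℝ) ^ j) ^ (-s) * ∑ n ∈ F, b n * Real.exp (-(4 * Real.pi * n * (1 / 2 ^ j))) ≤
        A * ((1 + (j : ℝ)) * q ^ j) := by
    intro F j
    have hp : (0 : ℝ) < 2 ^ j := by positivity
    have hp1 : (1 : ℝ) ≤ 2 ^ j := one_le_pow₀ one_le_two
    obtain ⟨h1, h2⟩ := h (1 / 2 ^ j) (by positivity) (by rw [div_le_one hp]; exact hp1)
    have h3 : ∑ n ∈ F, b n * Real.exp (-(4 * Real.pi * n * (1 / 2 ^ j))) ≤
        A * (1 + Real.log (1 / (1 / 2 ^ j))) / (1 / 2 ^ j) :=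
      (h1.sum_le_tsum F fun n _ => mul_nonneg (hb n) (Real.exp_pos _).le).trans h2
    rw [one_div_one_div, Real.log_pow] at h3
    have h4 : Real.log 2 ≤ 1 := by
      have := Real.log_le_sub_one_of_pos (x := 2) two_pos
      linarith
    have h5 : (j : ℝ) * Real.log 2 ≤ j := by
      have : (0 : ℝ) ≤ j := Nat.cast_nonneg j
      nlinarith
    have h6 : A * (1 + (j : ℝ) * Real.log 2) / (1 / 2 ^ j) ≤ A * (1 + (j : ℝ)) * 2 ^ j := by
      rw [div_div_eq_mul_div, div_one]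
      refine mul_le_mul_of_nonneg_right (mul_le_mul_of_nonneg_left (by linarith) hA) hp.le
    have h7 : ((2 : ℝ) ^ j) ^ (-s) * 2 ^ j = q ^ j := by
      rw [hq, ← Real.rpow_natCast 2 j, ← Real.rpow_natCast (2 ^ (1 - s)) j, ← Real.rpow_mul two_pos.le,
        ← Real.rpow_mul two_pos.le, ← Real.rpow_add two_pos]
      congr 1
      ring
    calc ((2 : ℝ) ^ j) ^ (-s) * ∑ n ∈ F, b n * Real.exp (-(4 * Real.pi * n * (1 / 2 ^ j)))
        ≤ ((2 : ℝ) ^ j) ^ (-s) * (A * (1 + (j : ℝ)) * 2 ^ j) :=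
          mul_le_mul_of_nonneg_left (h3.trans h6) (Real.rpow_nonneg hp.le _)
      _ = A * (1 + (j : ℝ)) * (((2 : ℝ) ^ j) ^ (-s) * 2 ^ j) := by ring
      _ = A * ((1 + (j : ℝ)) * q ^ j) := by rw [h7, mul_assoc]
  -- finite sums
  have hfin : ∀ F : Finset ℕ, ∑ n ∈ F, b n / (n : ℝ) ^ s ≤
      4 * Real.exp (8 * Real.pi) * A * (s - 1) ^ (-(2 : ℝ)) := by
    intro F
    obtain ⟨J, hJ⟩ : ∃ J : ℕ, ∀ n ∈ F, n < J := ⟨F.sup id + 1, fun n hn => by
      have := Finset.le_sup (f := id) hn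
      simp only [id] at this
      omega⟩
    have h1 : ∀ n ∈ F, b n / (n : ℝ) ^ s ≤ ∑ j ∈ Finset.range J, Real.exp (8 * Real.pi) *
        (((2 : ℝ) ^ j) ^ (-s) * (b n * Real.exp (-(4 * Real.pi * n * (1 / 2 ^ j))))) := by
      intro n hn
      have hnn : ∀ j ∈ Finset.range J, 0 ≤ Real.exp (8 * Real.pi) *
          (((2 : ℝ) ^ j) ^ (-s) * (b n * Real.exp (-(4 * Real.pi * n * (1 / 2 ^ j))))) := by
        intro j _
        have := hb n
        positivity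
      rcases Nat.eq_zero_or_pos n with h0 | h0
      · rw [h0, hb0, zero_div]
        rw [h0, hb0] at hnn
        exact Finset.sum_nonneg hnn
      · have hj : Nat.log 2 n ∈ Finset.range J := by
          rw [Finset.mem_range]
          exact (Nat.log_le_self 2 n).trans_lt (hJ n hn)
        refine le_trans ?_ (Finset.single_le_sum hnn hj)
        have h2 : 2 ^ Nat.log 2 n ≤ n := Nat.pow_log_le_self 2 h0.ne'
        have h3 : n < 2 ^ (Nat.log 2 n + 1) := Nat.lt_pow_succ_log_self one_lt_two n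
        obtain ⟨j, hjd⟩ : ∃ j, j = Nat.log 2 n := ⟨_, rfl⟩
        rw [← hjd] at h2 h3 ⊢
        have h2' : (2 : ℝ) ^ j ≤ n := by exact_mod_cast h2
        have h3' : (n : ℝ) < 2 * 2 ^ j := by
          have : (n : ℝ) < 2 ^ (j + 1) := by exact_mod_cast h3
          rw [pow_succ] at this
          linarith
        have hp : (0 : ℝ) < 2 ^ j := by positivity
        have hn0 : (0 : ℝ) < n := by exact_mod_cast h0
        have h4 : 1 / (n : ℝ) ^ s ≤ ((2 : ℝ) ^ j) ^ (-s) := by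
          rw [Real.rpow_neg hp.le, one_div]
          refine inv_anti₀ (Real.rpow_pos_of_pos hp _) ?_
          exact Real.rpow_le_rpow hp.le h2' (by linarith)
        have h5 : 1 ≤ Real.exp (8 * Real.pi) * Real.exp (-(4 * Real.pi * n * (1 / 2 ^ j))) := by
          rw [← Real.exp_add]
          refine Real.one_le_exp ?_
          have h6 : (n : ℝ) * (1 / 2 ^ j) ≤ 2 := by
            rw [mul_one_div, div_le_iff₀ hp]
            exact h3'.le
          nlinarith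
        calc b n / (n : ℝ) ^ s = b n * (1 / (n : ℝ) ^ s) := by rw [mul_one_div]
          _ ≤ b n * ((2 : ℝ) ^ j) ^ (-s) := mul_le_mul_of_nonneg_left h4 (hb n)
          _ = b n * ((2 : ℝ) ^ j) ^ (-s) * 1 := by rw [mul_one]
          _ ≤ b n * ((2 : ℝ) ^ j) ^ (-s) *
              (Real.exp (8 * Real.pi) * Real.exp (-(4 * Real.pi * n * (1 / 2 ^ j)))) :=
            mul_le_mul_of_nonneg_left h5 (mul_nonneg (hb n) (Real.rpow_nonneg hp.le _))
          _ = Real.exp (8 * Real.pi) *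
              (((2 : ℝ) ^ j) ^ (-s) * (b n * Real.exp (-(4 * Real.pi * n * (1 / 2 ^ j))))) := by ring
    refine (Finset.sum_le_sum h1).trans ?_
    rw [Finset.sum_comm]
    have h2 : ∀ j ∈ Finset.range J, ∑ n ∈ F, Real.exp (8 * Real.pi) *
        (((2 : ℝ) ^ j) ^ (-s) * (b n * Real.exp (-(4 * Real.pi * n * (1 / 2 ^ j))))) ≤
        Real.exp (8 * Real.pi) * (A * ((1 + (j : ℝ)) * q ^ j)) := by
      intro j _
      rw [← Finset.mul_sum, ← Finset.mul_sum]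
      exact mul_le_mul_of_nonneg_left (hblock F j) (Real.exp_pos _).le
    refine (Finset.sum_le_sum h2).trans ?_
    rw [← Finset.mul_sum, ← Finset.mul_sum]
    have h3 := geo q hq0.le hq1 J
    have h4 : 1 / (1 - q) ^ 2 ≤ 4 * (s - 1) ^ (-(2 : ℝ)) := by
      have h5 : 0 < (s - 1) / 2 := by linarith
      have h6 : ((s - 1) / 2) ^ 2 ≤ (1 - q) ^ 2 := pow_le_pow_left₀ h5.le (by linarith) 2
      have h7 : 1 / (1 - q) ^ 2 ≤ 1 / ((s - 1) / 2) ^ 2 := one_div_le_one_div_of_le (by positivity) h6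
      refine h7.trans (le_of_eq ?_)
      have h8 : (s - 1) ^ (-(2 : ℝ)) = ((s - 1) ^ 2)⁻¹ := by
        rw [Real.rpow_neg (by linarith), Real.rpow_two]
      rw [h8]
      have h9 : s - 1 ≠ 0 := by linarith
      field_simp
      norm_num
    calc Real.exp (8 * Real.pi) * (A * ∑ j ∈ Finset.range J, (1 + (j : ℝ)) * q ^ j)
        ≤ Real.exp (8 * Real.pi) * (A * (4 * (s - 1) ^ (-(2 : ℝ)))) :=
          mul_le_mul_of_nonneg_left (mul_le_mul_of_nonneg_left (h3.trans h4) hA) (Real.exp_pos _).le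
      _ = 4 * Real.exp (8 * Real.pi) * A * (s - 1) ^ (-(2 : ℝ)) := by ring
  have hnn : ∀ n : ℕ, 0 ≤ b n / (n : ℝ) ^ s := fun n =>
    div_nonneg (hb n) (Real.rpow_nonneg (Nat.cast_nonneg n) _)
  have hsum : Summable fun n : ℕ => b n / (n : ℝ) ^ s := summable_of_sum_le hnn hfin
  exact ⟨hsum, hsum.tsum_le_of_sum_le hfin⟩

end Pool.Agent.H97.ICW
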