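import Mathlib
import Pool.Agent.H97.ICW.Cst
import Pool.Agent.H13.IC.Oa

/-!
# [H97 ICW Ob] weight one: the orbit is bounded on the fundamental domain and the pointwise bound
(THEOREM IC, MP_8e9775_nt, chapter 6)

PROOF. `orbit_bdd`: for each `h` in the finite orbit: for `Im τ ≥ 1` by `cusp_const` `‖h τ‖ ≤ ‖κ‖ + C`; for
`1/2 ≤ Im τ ≤ 1`, `|Re τ| ≤ 1/2` by compactness and continuity (as `ub_one` and `bdd` in
Pool/Agent/H13/IC/Ub.lean; `hol_sl`, holomorphy of `fH U` from `ev_diff`). Sum of the bounds.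
`pt`: for `τ = ⟨z, hz⟩` take `γ` with `γ • τ ∈ 𝒟` (`ModularGroup.exists_smul_mem_fd`), `τ' = γ • τ`,
`|Re τ'| ≤ 1/2`, `Im τ' ≥ 1/2` (`ModularGroup.three_le_four_mul_im_sq_of_mem_fd`). `im_sl`:
`Im τ' = y / ‖γ10 z + γ11‖ ^ 2`, so `‖γ10 z + γ11‖ ^ 2 ≤ 2 y`. `sl_abs` (with `k = 1`, for `γ⁻¹` and `τ'`), squared:
`‖ev U z‖ ^ 2 * y = ‖h τ'‖ ^ 2 * Im τ' ≤ C ^ 2 * y / ‖γ10 z + γ11‖ ^ 2`. Divide by `y`. If `γ10 = 0` then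
`γ11 = ±1` (determinant one). If `γ10 < 0` replace `(γ10, γ11)` by its negative. `c = γ10.natAbs`.
-/

set_option autoImplicit false

namespace Pool.Agent.H97.ICW

open Complex PowerSeries UpperHalfPlane MatrixGroups Pool.Agent.H13.IC

private theorem ob_one {h : ℍ → ℂ} (hh : Hol h) {κ : ℂ} {C c : ℝ} (hC : 0 < C) (hc : 0 < c)
    (hd : ∀ τ : ℍ, 1 ≤ τ.im → ‖h τ - κ‖ ≤ C * Real.exp (-(c * τ.im))) :
    ∃ B : ℝ, 0 < B ∧ ∀ τ : ℍ, |τ.re| ≤ 1 / 2 → 1 / 2 ≤ τ.im → ‖h τ‖ ≤ B := by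
  have hcomp : IsCompact (Set.Icc (-(1 / 2) : ℝ) (1 / 2) ×ℂ Set.Icc (1 / 2 : ℝ) 1) :=
    isCompact_Icc.reProdIm isCompact_Icc
  have hcont : ContinuousOn (h ∘ UpperHalfPlane.ofComplex)
      (Set.Icc (-(1 / 2) : ℝ) (1 / 2) ×ℂ Set.Icc (1 / 2 : ℝ) 1) := by
    refine ContinuousOn.mono hh.continuousOn ?_
    intro z hz
    have h1 := (Complex.mem_reProdIm.1 hz).2.1
    show 0 < z.im
    linarith
  obtain ⟨B1, hB1⟩ := hcomp.exists_bound_of_continuousOn hcont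
  refine ⟨|B1| + (‖κ‖ + C), by positivity, ?_⟩
  intro τ hre him
  have h5 := abs_nonneg B1
  have h6 := norm_nonneg κ
  by_cases h1 : τ.im ≤ 1
  · have h2 := hB1 (τ : ℂ) (Complex.mem_reProdIm.2 ⟨abs_le.1 hre, him, h1⟩)
    have h3 : (h ∘ UpperHalfPlane.ofComplex) (τ : ℂ) = h τ := by
      rw [Function.comp_apply, UpperHalfPlane.ofComplex_apply]
    rw [h3] at h2
    have h4 := le_abs_self B1
    linarith
  · have h1' : 1 ≤ τ.im := (not_le.1 h1).le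
    have h2 := hd τ h1'
    have h3 : Real.exp (-(c * τ.im)) ≤ 1 := by
      rw [Real.exp_le_one_iff]
      nlinarith [τ.im_pos]
    have h4 : ‖h τ‖ ≤ ‖κ‖ + ‖h τ - κ‖ := by
      have := norm_add_le κ (h τ - κ)
      rwa [add_sub_cancel] at this
    nlinarith

theorem orbit_bdd (U : PowerSeries ℂ) (hU : GD 1 U) (hO : (Set.range (sl 1 (fH U))).Finite) :
    ∃ C : ℝ, 0 < C ∧ ∀ h ∈ Set.range (sl 1 (fH U)), ∀ τ : ℍ, |τ.re| ≤ 1 / 2 → 1 / 2 ≤ τ.im →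
      ‖h τ‖ ≤ C := by
  classical
  have hol : Hol (fH U) := by
    have h1 := ev_diff hU.cvg
    unfold Hol
    refine h1.congr fun z hz => ?_
    rw [Function.comp_apply, UpperHalfPlane.ofComplex_apply_of_im_pos hz]
    rfl
  have h1 : ∀ h ∈ Set.range (sl 1 (fH U)), ∃ B : ℝ, 0 < B ∧ ∀ τ : ℍ, |τ.re| ≤ 1 / 2 →
      1 / 2 ≤ τ.im → ‖h τ‖ ≤ B := by
    intro h hh
    obtain ⟨κ, C, c, hC, hc, hd⟩ := cusp_const U hU hO h hh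
    have hh' : Hol h := by
      obtain ⟨γ, rfl⟩ := hh
      exact hol_sl 1 hol γ
    exact ob_one hh' hC hc hd
  choose! B hB0 hB using h1
  refine ⟨1 + ∑ h ∈ hO.toFinset, B h, ?_, ?_⟩
  · have : 0 ≤ ∑ h ∈ hO.toFinset, B h :=
      Finset.sum_nonneg fun h hh => (hB0 h (hO.mem_toFinset.1 hh)).le
    linarith
  · intro h hh τ h2 h3
    have h7 := hB _ hh τ h2 h3
    have h8 : B h ≤ ∑ h ∈ hO.toFinset, B h :=
      Finset.single_le_sum (f := B) (fun h hh => (hB0 h (hO.mem_toFinset.1 hh)).le)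
        (hO.mem_toFinset.2 hh)
    linarith

private theorem ob_cd (γ : SL(2, ℤ)) (z : ℂ) : ∃ (c : ℕ) (d : ℤ), (c = 0 → d ^ 2 = 1) ∧
    ‖(c : ℂ) * z + d‖ = ‖((γ 1 0 : ℤ) : ℂ) * z + ((γ 1 1 : ℤ) : ℂ)‖ := by
  have hdet : γ 0 0 * γ 1 1 - γ 0 1 * γ 1 0 = 1 := by
    have h1 := γ.det_coe
    rw [Matrix.det_fin_two] at h1
    exact h1
  have hd2 : γ 1 0 = 0 → (γ 1 1) ^ 2 = 1 := by
    intro h0
    rw [h0, mul_zero, sub_zero, Int.mul_eq_one_iff_eq_one_or_neg_one] at hdet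
    rcases hdet with h1 | h1
    · rw [h1.2]
      norm_num
    · rw [h1.2]
      norm_num
  rcases le_total 0 (γ 1 0) with h | h
  · obtain ⟨c, hc⟩ := Int.eq_ofNat_of_zero_le h
    refine ⟨c, γ 1 1, fun h0 => hd2 (by rw [hc, h0]; rfl), ?_⟩
    rw [hc, Int.cast_natCast]
  · obtain ⟨c, hc⟩ := Int.eq_ofNat_of_zero_le (neg_nonneg.2 h)
    refine ⟨c, -(γ 1 1), fun h0 => ?_, ?_⟩
    · rw [neg_sq]
      refine hd2 (neg_eq_zero.1 ?_)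
      rw [hc, h0]
      rfl
    · have h1 : γ 1 0 = -(c : ℤ) := by
        rw [← neg_neg (γ 1 0), hc]
      rw [h1, ← norm_neg]
      congr 1
      push_cast
      ring

theorem pt (U : PowerSeries ℂ) (hU : GD 1 U) (hO : (Set.range (sl 1 (fH U))).Finite) :
    ∃ C : ℝ, 0 < C ∧ ∀ z : ℂ, 0 < z.im → ∃ (c : ℕ) (d : ℤ), (c = 0 → d ^ 2 = 1) ∧
      ‖(c : ℂ) * z + d‖ ^ 2 ≤ 2 * z.im ∧ ‖ev U z‖ ^ 2 * ‖(c : ℂ) * z + d‖ ^ 2 ≤ C := by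
  obtain ⟨C, hC, hb⟩ := orbit_bdd U hU hO
  refine ⟨C ^ 2, by positivity, fun z hz => ?_⟩
  obtain ⟨γ, hγ⟩ := ModularGroup.exists_smul_mem_fd (⟨z, hz⟩ : ℍ)
  obtain ⟨τ', hτ'⟩ : ∃ τ' : ℍ, τ' = γ • (⟨z, hz⟩ : ℍ) := ⟨_, rfl⟩
  rw [← hτ'] at hγ
  obtain ⟨c, d, hcd, hn⟩ := ob_cd γ z
  refine ⟨c, d, hcd, ?_⟩
  rw [hn]
  have h2 := sl_abs 1 (fH U) γ⁻¹ τ'
  have h3 : γ⁻¹ • τ' = (⟨z, hz⟩ : ℍ) := by rw [hτ', inv_smul_smul]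
  rw [h3] at h2
  have h4 : ‖sl 1 (fH U) γ⁻¹ τ'‖ * τ'.im ^ (((1 : ℕ) : ℝ) / 2) = ‖ev U z‖ * z.im ^ (((1 : ℕ) : ℝ) / 2) := h2
  have h5 := ModularGroup.three_le_four_mul_im_sq_of_mem_fd hγ
  have h6 : 1 / 2 ≤ τ'.im := by
    have := τ'.im_pos
    nlinarith
  have h7 := hb _ ⟨γ⁻¹, rfl⟩ τ' hγ.2 h6
  have h8 : τ'.im = z.im / ‖((γ 1 0 : ℤ) : ℂ) * z + ((γ 1 1 : ℤ) : ℂ)‖ ^ 2 := by
    rw [hτ', im_sl]
    rfl
  have hD0 : 0 < ‖((γ 1 0 : ℤ) : ℂ) * z + ((γ 1 1 : ℤ) : ℂ)‖ :=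
    norm_pos_iff.2 (den_ne γ (⟨z, hz⟩ : ℍ))
  obtain ⟨D, hD⟩ : ∃ D : ℝ, D = ‖((γ 1 0 : ℤ) : ℂ) * z + ((γ 1 1 : ℤ) : ℂ)‖ := ⟨_, rfl⟩
  rw [← hD] at h8 hD0 ⊢
  have hD2 : 0 < D ^ 2 := by positivity
  constructor
  · rw [h8, div_le_div_iff₀ two_pos hD2] at h6
    linarith
  · have hsq : ∀ y : ℝ, 0 < y → (y ^ (((1 : ℕ) : ℝ) / 2)) ^ 2 = y := by
      intro y hy
      rw [← Real.rpow_natCast _ 2, ← Real.rpow_mul hy.le]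
      norm_num
    have h9 := congrArg (fun t : ℝ => t ^ 2) h4
    simp only [mul_pow] at h9
    rw [hsq _ τ'.im_pos, hsq _ hz, h8] at h9
    have h10 : ‖sl 1 (fH U) γ⁻¹ τ'‖ ^ 2 ≤ C ^ 2 := pow_le_pow_left₀ (norm_nonneg _) h7 2
    have h11 : ‖sl 1 (fH U) γ⁻¹ τ'‖ ^ 2 = ‖ev U z‖ ^ 2 * D ^ 2 := by
      have hz' : z.im ≠ 0 := hz.ne'
      field_simp at h9
      linarith
    rw [← h11]
    exact h10

end Pool.Agent.H97.ICW
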