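import Mathlib
import Pool.Agent.H97.ICW.Ob
import Pool.Agent.H97.ICW.Hi
import Pool.Agent.H97.ICW.Lp
import Pool.Agent.H13.IC.Ms

/-!
# [H97 ICW Up] weight one: the upper bound with a double pole (THEOREM IC, MP_8e9775_nt, chapter 6)

PROOF. `pt`: `C`. For `0 < y ≤ 1` apply `hi` to `φ x = ‖ev U (x + y I)‖ ^ 2` (continuous in `x`: `ev_diff`;
`‖c (x + y I) + d‖ ^ 2 = (c x + d)^2 + c^2 y^2`, `Complex.sq_norm`, `normSq_apply`), then `parseval hU.cvg`:
`∑ ‖coeff n U‖^2 exp(-(4 π n y)) ≤ 100 C (1 + log(1/y))/y`. `lp` with `b n = ‖coeff n U‖^2` (`b 0 = 0` by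
`hU.1`), `A = 100 C`. `DU 1 U s` has exponent `s + 1 - 1 = s`.
-/

set_option autoImplicit false

namespace Pool.Agent.H97.ICW

open Complex PowerSeries UpperHalfPlane MatrixGroups Pool.Agent.H13.IC

private theorem up_cont {U : PowerSeries ℂ} (hU : Cvg U) (y : ℝ) (hy : 0 < y) :
    Continuous fun x : ℝ => ‖ev U ((x : ℂ) + y * Complex.I)‖ ^ 2 := by
  have h1 : Continuous fun x : ℝ => ev U ((x : ℂ) + y * Complex.I) := by
    rw [continuous_iff_continuousAt]
    intro x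
    have hz : 0 < ((x : ℂ) + y * Complex.I).im := by simpa using hy
    have h2 : ContinuousAt (ev U) ((x : ℂ) + y * Complex.I) := by
      have h3 := (ev_diff hU).differentiableAt (x := (x : ℂ) + y * Complex.I)
        ((isOpen_lt continuous_const Complex.continuous_im).mem_nhds hz)
      exact h3.continuousAt
    have h4 : ContinuousAt (fun x : ℝ => (x : ℂ) + y * Complex.I) x := by fun_prop
    exact ContinuousAt.comp (g := ev U) (f := fun x : ℝ => (x : ℂ) + y * Complex.I) h2 h4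
  exact (h1.norm).pow 2

theorem upD (U : PowerSeries ℂ) (hU : GD 1 U) (hO : (Set.range (sl 1 (fH U))).Finite) :
    ∃ C : ℝ, 0 < C ∧ ∀ s : ℝ, 1 < s → s ≤ 2 → DU 1 U s ≤ C * (s - 1) ^ (-(2 : ℝ)) := by
  obtain ⟨C, hC, hpt⟩ := pt U hU hO
  obtain ⟨K, hK, hlp⟩ := lp
  refine ⟨K * (100 * C), by positivity, fun s hs1 hs2 => ?_⟩
  have hb : ∀ y : ℝ, 0 < y → y ≤ 1 →
      Summable (fun n : ℕ => ‖coeff n U‖ ^ 2 * Real.exp (-(4 * Real.pi * n * y))) ∧
      ∑' n : ℕ, ‖coeff n U‖ ^ 2 * Real.exp (-(4 * Real.pi * n * y)) ≤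
        (100 * C) * (1 + Real.log (1 / y)) / y := by
    intro y hy hy1
    have hp := parseval hU.cvg y hy
    refine ⟨hp.summable, ?_⟩
    rw [hp.tsum_eq]
    refine hi C y (fun x => ‖ev U ((x : ℂ) + y * Complex.I)‖ ^ 2) hC.le hy hy1
      ((up_cont hU.cvg y hy).intervalIntegrable _ _) fun x hx0 hx1 => ?_
    have hz : ((x : ℂ) + y * Complex.I).im = y := by simp
    obtain ⟨c, d, hcd, h1, h2⟩ := hpt ((x : ℂ) + y * Complex.I) (by rw [hz]; exact hy)
    rw [hz] at h1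
    have hn : ‖(c : ℂ) * ((x : ℂ) + y * Complex.I) + d‖ ^ 2 = ((c : ℝ) * x + d) ^ 2 + (c : ℝ) ^ 2 * y ^ 2 := by
      rw [Complex.sq_norm, Complex.normSq_apply]
      simp
      ring
    rw [hn] at h1 h2
    exact ⟨c, d, hcd, h1, h2⟩
  have h := (hlp (100 * C) (fun n => ‖coeff n U‖ ^ 2) (by positivity) (fun n => by positivity)
    (by rw [hU.1, norm_zero]; norm_num) hb s hs1 hs2).2
  have hD : DU 1 U s = ∑' n : ℕ, ‖coeff n U‖ ^ 2 / (n : ℝ) ^ s := by
    unfold DU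
    refine tsum_congr fun n => ?_
    congr 2
    push_cast
    ring
  rw [hD]
  exact h

end Pool.Agent.H97.ICW
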