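import Mathlib
import Pool.Agent.H13.IC.Le

/-!
# [H97 ICW Ca] weight one: no constant terms (THEOREM IC, MP_8e9775_nt, chapter 6)

PROOF. Copy `ub_one` and `bdd` of Pool/Agent/H13/IC/Ub.lean with `k = 1`, the hypothesis `hdec` in place of
`cusp_decay`: `‖ev U z‖ * z.im ^ ((1:ℝ)/2) ≤ C`. Then `upperD` (Ms.lean) and `lowD 1` (Le.lean), as in `RS`.
-/

set_option autoImplicit false

namespace Pool.Agent.H97.ICW

open Complex PowerSeries UpperHalfPlane MatrixGroups Pool.Agent.H13.IC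

private theorem ub_one1 (k : ℕ) {h : ℍ → ℂ} (hh : Hol h) {C c : ℝ} (hC : 0 < C) (hc : 0 < c)
    (hd : ∀ τ : ℍ, 1 ≤ τ.im → ‖h τ‖ ≤ C * Real.exp (-(c * τ.im))) :
    ∃ B : ℝ, 0 < B ∧ ∀ τ : ℍ, |τ.re| ≤ 1 / 2 → 1 / 2 ≤ τ.im →
      ‖h τ‖ * τ.im ^ ((k : ℝ) / 2) ≤ B := by
  have hcomp : IsCompact (Set.Icc (-(1 / 2) : ℝ) (1 / 2) ×ℂ Set.Icc (1 / 2 : ℝ) 1) :=
    isCompact_Icc.reProdIm isCompact_Icc
  have hcont : ContinuousOn (fun z : ℂ => ‖(h ∘ UpperHalfPlane.ofComplex) z‖ * z.im ^ ((k : ℝ) / 2))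
      (Set.Icc (-(1 / 2) : ℝ) (1 / 2) ×ℂ Set.Icc (1 / 2 : ℝ) 1) := by
    refine ContinuousOn.mul ?_ ?_
    · refine (ContinuousOn.mono hh.continuousOn ?_).norm
      intro z hz
      have h1 := (Complex.mem_reProdIm.1 hz).2.1
      show 0 < z.im
      linarith
    · refine ContinuousOn.rpow_const Complex.continuous_im.continuousOn ?_
      intro z hz
      have h1 := (Complex.mem_reProdIm.1 hz).2.1
      exact Or.inl (by linarith)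
  obtain ⟨B1, hB1⟩ := hcomp.exists_bound_of_continuousOn hcont
  refine ⟨|B1| + C * (k.factorial / c ^ k), by positivity, ?_⟩
  intro τ hre him
  have h0 : 0 ≤ C * ((k.factorial : ℝ) / c ^ k) := by positivity
  by_cases h1 : τ.im ≤ 1
  · have h2 := hB1 (τ : ℂ) (Complex.mem_reProdIm.2 ⟨abs_le.1 hre, him, h1⟩)
    have h3 : (h ∘ UpperHalfPlane.ofComplex) (τ : ℂ) = h τ := by
      rw [Function.comp_apply, UpperHalfPlane.ofComplex_apply]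
    rw [h3, Real.norm_eq_abs] at h2
    have h4 := (le_abs_self _).trans h2
    have h5 := le_abs_self B1
    have h6 : ((τ : ℂ)).im = τ.im := rfl
    rw [h6] at h4
    linarith
  · have h1' : 1 ≤ τ.im := (not_le.1 h1).le
    have h2 := hd τ h1'
    have h3 : τ.im ^ ((k : ℝ) / 2) ≤ τ.im ^ k := by
      rw [← Real.rpow_natCast]
      refine Real.rpow_le_rpow_of_exponent_le h1' ?_
      have : (0 : ℝ) ≤ k := Nat.cast_nonneg k
      linarith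
    have h4 : (c * τ.im) ^ k / k.factorial ≤ Real.exp (c * τ.im) :=
      Real.pow_div_factorial_le_exp _ (by positivity) k
    have h5 : τ.im ^ k * Real.exp (-(c * τ.im)) ≤ k.factorial / c ^ k := by
      rw [div_le_iff₀ (by positivity), mul_pow] at h4
      rw [Real.exp_neg, ← div_eq_mul_inv, div_le_div_iff₀ (Real.exp_pos _) (by positivity)]
      calc τ.im ^ k * c ^ k = c ^ k * τ.im ^ k := mul_comm _ _
        _ ≤ Real.exp (c * τ.im) * k.factorial := h4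
        _ = _ := mul_comm _ _
    have h6 : 0 ≤ |B1| := abs_nonneg _
    have h7 : 0 ≤ τ.im ^ ((k : ℝ) / 2) := Real.rpow_nonneg τ.im_pos.le _
    calc ‖h τ‖ * τ.im ^ ((k : ℝ) / 2) ≤ (C * Real.exp (-(c * τ.im))) * τ.im ^ k :=
          mul_le_mul h2 h3 h7 (by positivity)
      _ = C * (τ.im ^ k * Real.exp (-(c * τ.im))) := by ring
      _ ≤ C * (k.factorial / c ^ k) := mul_le_mul_of_nonneg_left h5 hC.le
      _ ≤ _ := by linarith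

private theorem bdd1 (k : ℕ) (U : PowerSeries ℂ) (hU : GD k U)
    (hO : (Set.range (sl k (fH U))).Finite)
    (hdec : ∀ h ∈ Set.range (sl k (fH U)), ∃ C c : ℝ, 0 < C ∧ 0 < c ∧
      ∀ τ : ℍ, 1 ≤ τ.im → ‖h τ‖ ≤ C * Real.exp (-(c * τ.im))) :
    ∃ C : ℝ, 0 < C ∧ ∀ z : ℂ, 0 < z.im → ‖ev U z‖ * z.im ^ ((k : ℝ) / 2) ≤ C := by
  classical
  have hol : Hol (fH U) := by
    have h1 := ev_diff hU.cvg
    unfold Hol
    refine h1.congr fun z hz => ?_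
    rw [Function.comp_apply, UpperHalfPlane.ofComplex_apply_of_im_pos hz]
    rfl
  have h1 : ∀ h ∈ Set.range (sl k (fH U)), ∃ B : ℝ, 0 < B ∧ ∀ τ : ℍ, |τ.re| ≤ 1 / 2 →
      1 / 2 ≤ τ.im → ‖h τ‖ * τ.im ^ ((k : ℝ) / 2) ≤ B := by
    intro h hh
    obtain ⟨C, c, hC, hc, hd⟩ := hdec h hh
    have hh' : Hol h := by
      obtain ⟨γ, rfl⟩ := hh
      exact hol_sl k hol γ
    exact ub_one1 k hh' hC hc hd
  choose! B hB0 hB using h1
  refine ⟨1 + ∑ h ∈ hO.toFinset, B h, ?_, ?_⟩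
  · have : 0 ≤ ∑ h ∈ hO.toFinset, B h :=
      Finset.sum_nonneg fun h hh => (hB0 h (hO.mem_toFinset.1 hh)).le
    linarith
  · intro z hz
    obtain ⟨γ, hγ⟩ := ModularGroup.exists_smul_mem_fd (⟨z, hz⟩ : ℍ)
    obtain ⟨τ', hτ'⟩ : ∃ τ' : ℍ, τ' = γ • (⟨z, hz⟩ : ℍ) := ⟨_, rfl⟩
    rw [← hτ'] at hγ
    have h2 := sl_abs k (fH U) γ⁻¹ τ'
    have h3 : γ⁻¹ • τ' = (⟨z, hz⟩ : ℍ) := by rw [hτ', inv_smul_smul]
    rw [h3] at h2
    have h4 : ‖ev U z‖ * z.im ^ ((k : ℝ) / 2) =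
        ‖sl k (fH U) γ⁻¹ τ'‖ * τ'.im ^ ((k : ℝ) / 2) := h2.symm
    rw [h4]
    have h5 := ModularGroup.three_le_four_mul_im_sq_of_mem_fd hγ
    have h6 : 1 / 2 ≤ τ'.im := by
      have := τ'.im_pos
      nlinarith
    have hmem : sl k (fH U) γ⁻¹ ∈ Set.range (sl k (fH U)) := ⟨_, rfl⟩
    have h7 := hB _ hmem τ' hγ.2 h6
    have h8 : B (sl k (fH U) γ⁻¹) ≤ ∑ h ∈ hO.toFinset, B h :=
      Finset.single_le_sum (f := B) (fun h hh => (hB0 h (hO.mem_toFinset.1 hh)).le)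
        (hO.mem_toFinset.2 hmem)
    linarith

theorem rs_of_decay (U : PowerSeries ℂ) (hU : GD 1 U) (hO : (Set.range (sl 1 (fH U))).Finite)
    (hne : U ≠ 0)
    (hdec : ∀ h ∈ Set.range (sl 1 (fH U)), ∃ C c : ℝ, 0 < C ∧ 0 < c ∧
      ∀ τ : ℍ, 1 ≤ τ.im → ‖h τ‖ ≤ C * Real.exp (-(c * τ.im))) :
    ∃ c C : ℝ, 0 < c ∧ ∀ s : ℝ, 1 < s → s ≤ 2 →
      c * (s - 1) ^ (-(1 : ℝ)) ≤ DU 1 U s ∧ DU 1 U s ≤ C * (s - 1) ^ (-(1 : ℝ)) := by
  obtain ⟨c, hc, h1⟩ := lowD 1 le_rfl U hU hO hne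
  obtain ⟨C0, _, h2⟩ := bdd1 1 U hU hO hdec
  obtain ⟨C, h3⟩ := upperD hU C0 h2
  exact ⟨c, C, hc, fun σ h4 h5 => ⟨h1 σ h4 h5, h3 σ h4 h5⟩⟩

end Pool.Agent.H97.ICW
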