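import Mathlib
import Pool.Agent.H11.Selberg.Defs
import Pool.Agent.H11.SC.Defs

/-!
# [H97 ICW Fe] the normalised functional equation of an entire element, k ≥ 1
(THEOREM IC, MP_8e9775_nt, chapter 6)

PROOF. Copy the last part of `entire_of_weight` (Pool/Agent/H13/IC/Ha.lean): the fields of `FEq` from
`IsSelberg`; `order`: `G s = (continuation)/(s-1)^m` outside the disc `‖s - 1‖ ≤ 1`, compactness inside;
`feq`: `G = F` outside `s = 1`, and `s`, `1 - conj s` are not `1` in the strip; `deg`: the sum is `1`; `shift`: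
`(k-1)/2` is real; `mure`: `(k-1)/2 ≥ 0` for `k ≥ 1`.
-/

set_option autoImplicit false

namespace Pool.Agent.H97.ICW

open Complex Pool.Agent.H11.Selberg Pool.Agent.H11.SC

theorem feq_of_entire (k : ℕ) (hk : 1 ≤ k) (N : ℝ) (hN : 0 < N) (a : ℕ → ℂ) (F : ℂ → ℂ) (ε : ℂ)
    (hS : IsSelberg a F) (hε : ‖ε‖ = 1) (G : ℂ → ℂ) (hG : Differentiable ℂ G)
    (hGF : ∀ s, s ≠ 1 → G s = F s)
    (hfe : ∀ s : ℂ, 0 < s.re → s.re < 1 →
      completed (Real.sqrt N / (2 * Real.pi)) (fun _ : Fin 1 => (1 : ℝ))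
          (fun _ => ((k : ℂ) - 1) / 2) F s =
        ε * (starRingEnd ℂ) (completed (Real.sqrt N / (2 * Real.pi)) (fun _ : Fin 1 => (1 : ℝ))
          (fun _ => ((k : ℂ) - 1) / 2) F (1 - (starRingEnd ℂ) s))) :
    FEq a G (Real.sqrt N / (2 * Real.pi)) (fun _ : Fin 1 => (1 : ℝ))
      (fun _ => ((k : ℂ) - 1) / 2) ε := by
  obtain ⟨Q, hQ⟩ : ∃ Q : ℝ, Q = Real.sqrt N / (2 * Real.pi) := ⟨_, rfl⟩
  obtain ⟨μ, hμ⟩ : ∃ μ : ℂ, μ = ((k : ℂ) - 1) / 2 := ⟨_, rfl⟩
  have hμ0 : 0 ≤ μ.re := by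
    have h1 : (((k : ℂ) - 1) / 2) = ((((k : ℝ) - 1) / 2 : ℝ) : ℂ) := by push_cast; ring
    rw [hμ, h1, Complex.ofReal_re]
    have : (1 : ℝ) ≤ k := by exact_mod_cast hk
    linarith
  have hQ0 : 0 < Q := by
    rw [hQ]
    exact div_pos (Real.sqrt_pos.2 hN) (by positivity)
  rw [← hQ, ← hμ] at hfe ⊢
  have hcomp : ∀ (H : ℂ → ℂ) (s : ℂ), completed Q (fun _ : Fin 1 => (1 : ℝ)) (fun _ => μ) H s =
      (Q : ℂ) ^ s * Complex.Gamma (s + μ) * H s := by
    intro H s
    unfold completed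
    simp
  obtain ⟨m, G0, hG0, hord, hG0F⟩ := hS.continuation
  have hne1 : ∀ s : ℂ, s.re < 1 → s ≠ 1 := by
    rintro s hs rfl
    rw [Complex.one_re] at hs
    exact lt_irrefl _ hs
  have hne1' : ∀ s : ℂ, 1 < s.re → s ≠ 1 := by
    rintro s hs rfl
    rw [Complex.one_re] at hs
    exact lt_irrefl _ hs
  refine
    { diff := hG
      order := ?_
      summable := hS.summable
      eqL := fun s hs => by rw [hGF s (hne1' s hs)]; exact hS.eq_LSeries s hs
      ram := hS.ramanujan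
      one := hS.one
      Qpos := hQ0
      lampos := fun _ => one_pos
      mure := fun _ => hμ0
      eps := hε
      feq := ?_
      deg := by simp
      shift := ?_ }
  · obtain ⟨A, C, hAC⟩ := hord
    obtain ⟨M, hM⟩ := (isCompact_closedBall (1 : ℂ) 1).exists_bound_of_continuousOn
      hG.continuous.continuousOn
    refine ⟨A, |C| + |M|, fun s => ?_⟩
    have he : 1 ≤ Real.exp (‖s‖ ^ A) := Real.one_le_exp (Real.rpow_nonneg (norm_nonneg s) A)
    have he0 : 0 < Real.exp (‖s‖ ^ A) := Real.exp_pos _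
    by_cases hs : ‖s - 1‖ ≤ 1
    · have h1 := hM s (by rw [Metric.mem_closedBall, dist_eq_norm]; exact hs)
      calc ‖G s‖ ≤ M := h1
        _ ≤ |C| + |M| := by
          have := le_abs_self M
          have := abs_nonneg C
          linarith
        _ = (|C| + |M|) * 1 := (mul_one _).symm
        _ ≤ (|C| + |M|) * Real.exp (‖s‖ ^ A) := mul_le_mul_of_nonneg_left he (by positivity)
    · push Not at hs
      have hs1 : s ≠ 1 := by
        rintro rfl
        rw [sub_self, norm_zero] at hs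
        linarith
      have h1 : ‖G s‖ ≤ ‖G0 s‖ := by
        rw [hGF s hs1, hG0F s hs1, norm_mul, norm_pow]
        exact le_mul_of_one_le_left (norm_nonneg _) (one_le_pow₀ hs.le)
      calc ‖G s‖ ≤ ‖G0 s‖ := h1
        _ ≤ C * Real.exp (‖s‖ ^ A) := hAC s
        _ ≤ (|C| + |M|) * Real.exp (‖s‖ ^ A) := by
          refine mul_le_mul_of_nonneg_right ?_ he0.le
          have := le_abs_self C
          have := abs_nonneg M
          linarith
  · intro s h0 h1
    have h2 := hfe s h0 h1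
    rw [hcomp, hcomp] at h2 ⊢
    rw [hGF s (hne1 s h1), hGF (1 - (starRingEnd ℂ) s) (hne1 _ ?_)]
    · exact h2
    · rw [Complex.sub_re, Complex.one_re, Complex.conj_re]
      linarith
  · have h1 : μ = ((((k : ℝ) - 1) / 2 : ℝ) : ℂ) := by rw [hμ]; push_cast; ring
    simp [h1]

end Pool.Agent.H97.ICW
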