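import Mathlib
import Pool.Agent.H97.ICW.Te
import Pool.Agent.H11.PE.TWN
import Pool.Agent.H11.PE.KAPB

/-!
# [H97 ICW Nz] a nonpretentious element has no pole in an additive twist
(THEOREM IC, MP_8e9775_nt, chapter 6)

PROOF. `PD0 a` from `pd0_of a F hS 0` (`a n * n^(-(0*I)) = a n`). `base_id` (TWN.lean):
`Es a (A0/M) s = ∑_χ gam a M χ s * χ A0`, `gam a M χ s = kap a M 1 χ s * LT a χ s`, `‖kap‖ ≤ K1` for `Re s ≥ 1`
(`kap_bound`, KAPB.lean). `log` of `PD0` for the completely multiplicative `g n = χ n` (bounded by one):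
`LT a g s = exp (PS (fun n => a n * g n) s + R)`, `‖R‖ ≤ K`, so
`‖LT a g (1+u)‖ ≤ exp (K + Re ∑_p a p χ p p^(-(1+u)))`. `hN` (NotPretentious, with `L = M`, `t = 0`,
`η = 1/8`) and `hT`: `Re ∑ ≤ (1/8) sqrt (T a u log (1/u)) + C ≤ (1/8) sqrt ((2 log(1/u) + K) log (1/u)) + C
≤ (1/2) log (1/u) + C'` for `0 < u ≤ 1/2` (`T a u ≥ 0`; `sqrt ((2l + K) l) ≤ 2 l + K` for `l ≥ 0`, and
`(1/8)(2 l + K) ≤ (1/2) l + K`). So `‖LT a g (1+u)‖ ≤ C'' u^(-(1/2))` and `u * Es → 0`: contradiction with the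
limit `w ≠ 0` (uniqueness of limits, `𝓝[>] 0` is not trivial).
-/

set_option autoImplicit false

namespace Pool.Agent.H97.ICW

open Pool.Agent.H11.Selberg Pool.Agent.H11.PE Pool.Agent.H11.PC Filter Topology

private theorem pd0_self (a : ℕ → ℂ) (F : ℂ → ℂ) (hS : IsSelberg a F) : PD0 a := by
  have h := pd0_of a F hS 0
  have h1 : (fun n : ℕ => a n * (n : ℂ) ^ (-(((0 : ℝ) : ℂ) * Complex.I) : ℂ)) = a := by
    funext n
    simp
  rwa [h1] at h

/-- `Re ∑ a p χ p p^(-1-u) ≤ (1/2) log (1/u) + C` -/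
private theorem re_le (a : ℕ → ℂ) (hN : NotPretentious a) (K : ℝ)
    (hT : ∀ u : ℝ, 0 < u → u ≤ 1 / 2 → T a u ≤ 2 * Real.log (1 / u) + K)
    (M : ℕ) [hM : NeZero M] (χ : DirichletCharacter ℂ M) :
    ∃ C : ℝ, ∀ u : ℝ, 0 < u → u ≤ 1 / 2 →
      (PS (fun n => a n * χ (n : ZMod M)) (1 + u)).re ≤ Real.log (1 / u) / 2 + C := by
  obtain ⟨C, hC⟩ := hN M hM χ 0 (1 / 8) (by norm_num)
  refine ⟨|K| + C, fun u hu hu2 => ?_⟩
  have h1 := hC u hu hu2
  have h2 : PS (fun n => a n * χ (n : ZMod M)) (1 + u) =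
      ∑' p : Nat.Primes, a (p : ℕ) * χ ((p : ℕ) : ZMod M) *
        ((p : ℕ) : ℂ) ^ (-(1 + ((0 : ℝ) : ℂ) * Complex.I + u) : ℂ) := by
    unfold PS
    refine tsum_congr fun p => ?_
    congr 2
    push_cast
    ring
  rw [h2]
  have hl : 0 ≤ Real.log (1 / u) := by
    apply Real.log_nonneg
    rw [le_div_iff₀ hu]
    linarith
  have hT0 : 0 ≤ T a u := by
    unfold T
    refine tsum_nonneg fun p => ?_
    exact mul_nonneg (by positivity) (Real.rpow_nonneg (Nat.cast_nonneg _) _)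
  have h3 : Real.sqrt (T a u * Real.log (1 / u)) ≤ (T a u + Real.log (1 / u)) / 2 := by
    rw [Real.sqrt_le_iff]
    constructor
    · positivity
    · nlinarith [sq_nonneg (T a u - Real.log (1 / u))]
  have h4 := hT u hu hu2
  have h5 := le_abs_self K
  have h6 := abs_nonneg K
  linarith

private theorem gam_le (a : ℕ → ℂ) (hPD : PD0 a) (hN : NotPretentious a) (K : ℝ)
    (hT : ∀ u : ℝ, 0 < u → u ≤ 1 / 2 → T a u ≤ 2 * Real.log (1 / u) + K)
    (M : ℕ) [hM : NeZero M] (χ : DirichletCharacter ℂ M) :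
    ∃ C : ℝ, 0 ≤ C ∧ ∀ u : ℝ, 0 < u → u ≤ 1 / 2 →
      ‖gam a M χ (1 + u)‖ * u ≤ C * Real.sqrt u := by
  obtain ⟨K1, hK1, hk⟩ := kap_bound hPD M
  obtain ⟨K2, hK2, hlog⟩ := hPD.log
  obtain ⟨C, hC⟩ := re_le a hN K hT M χ
  refine ⟨K1 * Real.exp (K2 + C), by positivity, fun u hu hu2 => ?_⟩
  have hs : (1 : ℝ) < ((1 : ℂ) + u).re := by
    rw [Complex.add_re, Complex.one_re, Complex.ofReal_re]
    linarith
  obtain ⟨R, hR, hE⟩ := hlog (fun n => χ (n : ZMod M)) (cm_char χ) (1 + u) hs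
  have h1 : ‖LT a (fun n => χ (n : ZMod M)) (1 + u)‖ ≤
      Real.exp (Real.log (1 / u) / 2 + (K2 + C)) := by
    rw [hE, Complex.norm_exp, Complex.add_re]
    apply Real.exp_le_exp.2
    have h2 := hC u hu hu2
    have h3 := (Complex.re_le_norm R).trans hR
    linarith
  have h4 : Real.exp (Real.log (1 / u) / 2) * u = Real.sqrt u := by
    have h5 : Real.exp (Real.log (1 / u) / 2) = Real.sqrt (1 / u) := by
      have h6 : (0 : ℝ) < 1 / u := by positivity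
      rw [Real.sqrt_eq_rpow, Real.rpow_def_of_pos h6]
      congr 1
      ring
    rw [h5, one_div, Real.sqrt_inv]
    have h7 : (0 : ℝ) < Real.sqrt u := Real.sqrt_pos.2 hu
    have h8 := Real.mul_self_sqrt hu.le
    field_simp
    nlinarith
  unfold gam
  rw [norm_mul]
  have h9 := hk χ (fun _ => 1) (fun _ => by simp) (1 + u) hs.le
  calc ‖kap a M (fun _ => 1) χ (1 + u)‖ * ‖LT a (fun n => χ (n : ZMod M)) (1 + u)‖ * u
      ≤ K1 * Real.exp (Real.log (1 / u) / 2 + (K2 + C)) * u :=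
        mul_le_mul_of_nonneg_right (mul_le_mul h9 h1 (norm_nonneg _) hK1) hu.le
    _ = K1 * Real.exp (K2 + C) * (Real.exp (Real.log (1 / u) / 2) * u) := by
        rw [Real.exp_add]
        ring
    _ = K1 * Real.exp (K2 + C) * Real.sqrt u := by rw [h4]

theorem no_pole (a : ℕ → ℂ) (F : ℂ → ℂ) (hS : IsSelberg a F) (hN : NotPretentious a) (K : ℝ)
    (hT : ∀ u : ℝ, 0 < u → u ≤ 1 / 2 → T a u ≤ 2 * Real.log (1 / u) + K)
    (M A0 : ℕ) (w : ℂ) (hM : 1 ≤ M) (hA : 1 ≤ A0) (hc : Nat.Coprime A0 M) (hw : w ≠ 0)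
    (h : Tendsto (fun u : ℝ => (u : ℂ) * Es a ((A0 : ℝ) / (M : ℝ)) (1 + u)) (𝓝[>] 0) (𝓝 w)) :
    False := by
  haveI : NeZero M := ⟨by omega⟩
  have hPD := pd0_self a F hS
  have h1 := fun χ : DirichletCharacter ℂ M => gam_le a hPD hN K hT M χ
  choose C hC0 hC using h1
  have h2 : ∀ u : ℝ, 0 < u → u ≤ 1 / 2 →
      ‖(u : ℂ) * Es a ((A0 : ℝ) / (M : ℝ)) (1 + u)‖ ≤ (∑ χ, C χ) * Real.sqrt u := by
    intro u hu hu2
    have hs : (1 : ℝ) < ((1 : ℂ) + u).re := by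
      rw [Complex.add_re, Complex.one_re, Complex.ofReal_re]
      linarith
    rw [base_id hPD M A0 hc (1 + u) hs, norm_mul, Complex.norm_real, Real.norm_of_nonneg hu.le,
      Finset.sum_mul, mul_comm]
    calc ‖∑ χ : DirichletCharacter ℂ M, gam a M χ (1 + u) * χ (A0 : ZMod M)‖ * u
        ≤ (∑ χ : DirichletCharacter ℂ M, ‖gam a M χ (1 + u)‖) * u := by
          refine mul_le_mul_of_nonneg_right ((norm_sum_le _ _).trans ?_) hu.le
          refine Finset.sum_le_sum fun χ _ => ?_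
          rw [norm_mul]
          have h3 := χ.norm_le_one (A0 : ZMod M)
          nlinarith [norm_nonneg (gam a M χ (1 + u))]
      _ = ∑ χ : DirichletCharacter ℂ M, ‖gam a M χ (1 + u)‖ * u := Finset.sum_mul _ _ _
      _ ≤ ∑ χ : DirichletCharacter ℂ M, C χ * Real.sqrt u :=
          Finset.sum_le_sum fun χ _ => hC χ u hu hu2
  have h3 : Tendsto (fun u : ℝ => (u : ℂ) * Es a ((A0 : ℝ) / (M : ℝ)) (1 + u)) (𝓝[>] 0) (𝓝 0) := by
    rw [tendsto_zero_iff_norm_tendsto_zero]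
    have h4 : Tendsto (fun u : ℝ => (∑ χ, C χ) * Real.sqrt u) (𝓝[>] 0) (𝓝 0) := by
      have h5 : Tendsto (fun u : ℝ => (∑ χ, C χ) * Real.sqrt u) (𝓝 0)
          (𝓝 ((∑ χ, C χ) * Real.sqrt 0)) :=
        (continuous_const.mul Real.continuous_sqrt).tendsto 0
      rw [Real.sqrt_zero, mul_zero] at h5
      exact h5.mono_left nhdsWithin_le_nhds
    refine squeeze_zero' (Eventually.of_forall fun _ => norm_nonneg _) ?_ h4
    have h6 : ∀ᶠ u : ℝ in 𝓝[>] 0, u ∈ Set.Ioc (0 : ℝ) (1 / 2) :=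
      Ioc_mem_nhdsGT (by norm_num)
    exact h6.mono fun u hu => h2 u hu.1 hu.2
  exact hw (tendsto_nhds_unique h h3)

end Pool.Agent.H97.ICW
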