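import Mathlib

/-!
# [H97 ICW Ab] MATHLIB ONLY: from the behaviour of a Laplace series at 0 to the Dirichlet series at 1
(THEOREM IC, MP_8e9775_nt, chapter 6)

PROOF. `g y = ∑ b n exp(-(2 π n y))` (`n ≥ 1` only, as `b 0 = 0`). For `u > 0`
`∑ b n n^(-(1+u)) = (2π)^(1+u) / Γ(1+u) * ∫_0^∞ g y * y^u dy` (termwise:
`Complex.integral_cpow_mul_exp_neg_mul_Ioi` or `Real.integral_rpow_mul_exp_neg_mul_Ioi`; exchange by
`MeasureTheory.hasSum_integral_of_summable_integral_norm`, since `∑ ‖b n‖ n^(-(1+u)) < ∞`).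
`g y = κ/y + e y / y` with `e y → 0` as `y → 0+`. Given `ε` choose `δ ≤ 1` with `‖e y‖ ≤ ε` on `(0, δ]`:
`∫_0^δ g y y^u dy = κ δ^u/u + O(ε δ^u/u)`; `∫_δ^∞ ‖g y‖ y^u dy` is bounded for `0 < u ≤ 1` (`‖g y‖ ≤
(∑ ‖b n‖ exp(-(2π(n-1) δ))) exp(-(2π y)) exp(2πδ)`, for `y ≥ δ`, finite). Multiply by `u` and let `u → 0+`:
the limit is `2π κ` (`Γ` and powers are continuous).
-/

set_option autoImplicit false

namespace Pool.Agent.H97.ICW

open Filter Topology

private theorem ab_term (b : ℕ → ℂ) (hb0 : b 0 = 0) (n : ℕ) {t : ℝ} (ht : 0 < t) :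
    ‖b n * Complex.exp (-(2 * Real.pi * n * t))‖ ≤ ‖b n‖ * (n : ℝ) ^ (-(1 + (2 : ℝ))) * (t ^ 3)⁻¹ := by
  rcases Nat.eq_zero_or_pos n with rfl | hn
  · rw [hb0, zero_mul, norm_zero, zero_mul, zero_mul]
  · have hn' : (0 : ℝ) < (n : ℝ) := by exact_mod_cast hn
    have e1 : (-(2 * (Real.pi : ℂ) * n * t)) = ((-(2 * Real.pi * n * t) : ℝ) : ℂ) := by
      push_cast
      ring
    have e2 : (n : ℝ) ^ (-(1 + (2 : ℝ))) = ((n : ℝ) ^ 3)⁻¹ := by
      rw [Real.rpow_neg hn'.le]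
      congr 1
      rw [← Real.rpow_natCast]
      norm_num
    rw [norm_mul, e1, Complex.norm_exp, Complex.ofReal_re, e2, mul_assoc ‖b n‖, ← mul_inv,
      ← mul_pow, Real.exp_neg]
    refine mul_le_mul_of_nonneg_left ?_ (norm_nonneg _)
    have hnt : 0 < (n : ℝ) * t := mul_pos hn' ht
    have h1 := Real.pow_div_factorial_le_exp (2 * Real.pi * n * t)
      (by positivity) 3
    refine inv_anti₀ (by positivity) (le_trans ?_ h1)
    have h2 : (2 * Real.pi * n * t) ^ 3 / ((Nat.factorial 3 : ℕ) : ℝ) =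
        (2 * Real.pi) ^ 3 / 6 * (n * t) ^ 3 := by
      rw [show ((Nat.factorial 3 : ℕ) : ℝ) = 6 by norm_num [Nat.factorial]]
      ring
    rw [h2]
    have h3 : (1 : ℝ) ≤ (2 * Real.pi) ^ 3 / 6 := by
      have h4 : (3 : ℝ) < Real.pi := Real.pi_gt_three
      have h5 : (6 : ℝ) ^ 3 ≤ (2 * Real.pi) ^ 3 := pow_le_pow_left₀ (by norm_num) (by linarith) 3
      rw [le_div_iff₀ (by norm_num)]
      norm_num at h5 ⊢
      linarith
    calc (n * t) ^ 3 = 1 * (n * t) ^ 3 := (one_mul _).symm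
      _ ≤ (2 * Real.pi) ^ 3 / 6 * (n * t) ^ 3 :=
        mul_le_mul_of_nonneg_right h3 (by positivity)

theorem abel (b : ℕ → ℂ) (hb0 : b 0 = 0)
    (hb : ∀ u : ℝ, 0 < u → Summable (fun n : ℕ => ‖b n‖ * (n : ℝ) ^ (-(1 + u)))) (κ : ℂ)
    (h : Tendsto (fun y : ℝ => (y : ℂ) * ∑' n : ℕ, b n * Complex.exp (-(2 * Real.pi * n * y)))
      (𝓝[>] 0) (𝓝 κ)) :
    Tendsto (fun u : ℝ => (u : ℂ) * LSeries b (1 + u)) (𝓝[>] 0) (𝓝 (2 * Real.pi * κ)) := by
  obtain ⟨F, hF⟩ : ∃ F : ℝ → ℂ, F = fun t : ℝ =>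
    ∑' n : ℕ, b n * Complex.exp (-(2 * Real.pi * n * t)) := ⟨_, rfl⟩
  obtain ⟨S, hS⟩ : ∃ S : ℝ, S = ∑' n : ℕ, ‖b n‖ * (n : ℝ) ^ (-(1 + (2 : ℝ))) := ⟨_, rfl⟩
  have hS0 : 0 ≤ S := by
    rw [hS]
    exact tsum_nonneg fun n => by positivity
  have hsm : ∀ t : ℝ, 0 < t → Summable fun n : ℕ => b n * Complex.exp (-(2 * Real.pi * n * t)) := by
    intro t ht
    exact Summable.of_norm_bounded ((hb 2 two_pos).mul_right _) fun n => ab_term b hb0 n ht
  have hFn : ∀ t : ℝ, 0 < t → ‖F t‖ ≤ S * (t ^ 3)⁻¹ := by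
    intro t ht
    rw [hF, hS]
    exact tsum_of_norm_bounded ((hb 2 two_pos).hasSum.mul_right _) fun n => ab_term b hb0 n ht
  obtain ⟨G, hG⟩ : ∃ G : ℝ → ℂ, G = fun t : ℝ => (t : ℂ) * F t := ⟨_, rfl⟩
  have hGt : Tendsto G (𝓝[>] 0) (𝓝 κ) := by
    rw [hG, hF]
    exact h
  have hGS : ∀ t : ℝ, 0 < t → ‖G t‖ ≤ S * (t ^ 2)⁻¹ := by
    intro t ht
    rw [hG, norm_mul, Complex.norm_real, Real.norm_of_nonneg ht.le]
    calc t * ‖F t‖ ≤ t * (S * (t ^ 3)⁻¹) := mul_le_mul_of_nonneg_left (hFn t ht) ht.le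
      _ = S * (t ^ 2)⁻¹ := by field_simp
  obtain ⟨M, hM0, hM⟩ : ∃ M : ℝ, 0 ≤ M ∧ ∀ t : ℝ, 0 < t → ‖G t‖ ≤ M := by
    have h1 : ∀ᶠ t in 𝓝[>] (0 : ℝ), ‖G t‖ ≤ ‖κ‖ + 1 :=
      hGt.norm.eventually_le_const (lt_add_one _)
    rw [eventually_nhdsWithin_iff, Metric.eventually_nhds_iff] at h1
    obtain ⟨δ, hδ, h2⟩ := h1
    refine ⟨‖κ‖ + 1 + S * (δ ^ 2)⁻¹, by positivity, fun t ht => ?_⟩
    rcases lt_or_ge t δ with h3 | h3
    · have h4 := h2 (y := t) (by rw [Real.dist_eq, sub_zero, abs_of_pos ht]; exact h3) ht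
      have h5 : 0 ≤ S * (δ ^ 2)⁻¹ := by positivity
      linarith
    · have h4 := hGS t ht
      have h5 : S * (t ^ 2)⁻¹ ≤ S * (δ ^ 2)⁻¹ := by gcongr
      have h6 : 0 ≤ ‖κ‖ := norm_nonneg _
      linarith
  have key : ∀ u : ℝ, 0 < u → (u : ℂ) * mellin F (1 + u) = ∫ y in Set.Ioi (0 : ℝ), G (y ^ u⁻¹) := by
    intro u hu
    rw [← MeasureTheory.integral_comp_rpow_Ioi_of_pos (g := fun y => G (y ^ u⁻¹)) hu]
    unfold mellin
    rw [← MeasureTheory.integral_const_mul]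
    refine MeasureTheory.setIntegral_congr_fun measurableSet_Ioi fun x hx => ?_
    have hx0 : 0 < x := hx
    have e1 : (x ^ u) ^ u⁻¹ = x := Real.rpow_rpow_inv hx0.le hu.ne'
    have e2 : (x : ℂ) ^ ((1 + (u : ℂ)) - 1) = ((x ^ u : ℝ) : ℂ) := by
      rw [add_sub_cancel_left, Complex.ofReal_cpow hx0.le]
    have e3 : x ^ (u - 1) * x = x ^ u := by
      rw [← Real.rpow_add_one hx0.ne', sub_add_cancel]
    simp only [smul_eq_mul]
    rw [e1, e2, hG, ← e3, Complex.real_smul]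
    push_cast
    ring
  have hlim : Tendsto (fun u : ℝ => ∫ y in Set.Ioi (0 : ℝ), G (y ^ u⁻¹)) (𝓝[>] 0) (𝓝 κ) := by
    have e0 : ∫ y in Set.Ioi (0 : ℝ), (Set.Iio (1 : ℝ)).indicator (fun _ => κ) y = κ := by
      rw [MeasureTheory.setIntegral_indicator measurableSet_Iio, Set.Ioi_inter_Iio,
        MeasureTheory.setIntegral_const, MeasureTheory.measureReal_def, Real.volume_Ioo]
      simp
    rw [← e0]
    refine MeasureTheory.tendsto_integral_filter_of_dominated_convergence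
      (fun y : ℝ => 2 * (M + S) * (1 + y ^ 2)⁻¹) ?_ ?_ ?_ ?_
    · filter_upwards [self_mem_nhdsWithin] with u hu
      have hu0 : (0 : ℝ) < u := hu
      have hc : Continuous fun y : ℝ => y ^ u⁻¹ :=
        Real.continuous_rpow_const (inv_nonneg.2 hu0.le)
      rw [hG]
      refine MeasureTheory.AEStronglyMeasurable.mul ?_ ?_
      · exact (Complex.continuous_ofReal.comp hc).aestronglyMeasurable
      · refine aestronglyMeasurable_of_tendsto_ae (u := atTop) (f := fun (N : ℕ) (y : ℝ) =>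
          ∑ n ∈ Finset.range N, b n * Complex.exp (-(2 * Real.pi * n * ((y ^ u⁻¹ : ℝ) : ℂ)))) ?_ ?_
        · intro N
          refine Continuous.aestronglyMeasurable ?_
          refine continuous_finsetSum _ fun n _ => ?_
          refine continuous_const.mul (Complex.continuous_exp.comp ?_)
          exact (continuous_const.mul (Complex.continuous_ofReal.comp hc)).neg
        · rw [MeasureTheory.ae_restrict_iff' measurableSet_Ioi]
          refine Eventually.of_forall fun y hy => ?_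
          have hy0 : (0 : ℝ) < y := hy
          rw [hF]
          exact (hsm (y ^ u⁻¹) (Real.rpow_pos_of_pos hy0 _)).hasSum.tendsto_sum_nat
    · filter_upwards [Ioc_mem_nhdsGT (zero_lt_one (α := ℝ))] with u hu
      rw [MeasureTheory.ae_restrict_iff' measurableSet_Ioi]
      refine Eventually.of_forall fun y hy => ?_
      have hy0 : (0 : ℝ) < y := hy
      have hu1 : 1 ≤ u⁻¹ := (one_le_inv₀ hu.1).2 hu.2
      rw [← div_eq_mul_inv, le_div_iff₀ (by positivity)]
      rcases le_or_gt y 1 with h1 | h1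
      · have h2 := hM (y ^ u⁻¹) (Real.rpow_pos_of_pos hy0 _)
        have h3 : y ^ 2 ≤ 1 := pow_le_one₀ hy0.le h1
        have h4 : ‖G (y ^ u⁻¹)‖ * (1 + y ^ 2) ≤ M * 2 :=
          mul_le_mul h2 (by linarith) (by positivity) hM0
        linarith
      · have h2 := hGS (y ^ u⁻¹) (Real.rpow_pos_of_pos hy0 _)
        have h3 : y ≤ y ^ u⁻¹ := by
          calc y = y ^ (1 : ℝ) := (Real.rpow_one y).symm
            _ ≤ y ^ u⁻¹ := Real.rpow_le_rpow_of_exponent_le h1.le hu1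
        have h4 : S * ((y ^ u⁻¹) ^ 2)⁻¹ ≤ S * (y ^ 2)⁻¹ := by gcongr
        have h5 : 1 + y ^ 2 ≤ 2 * y ^ 2 := by nlinarith
        have h6 : ‖G (y ^ u⁻¹)‖ * (1 + y ^ 2) ≤ S * (y ^ 2)⁻¹ * (2 * y ^ 2) :=
          mul_le_mul (h2.trans h4) h5 (by positivity) (by positivity)
        have h7 : S * (y ^ 2)⁻¹ * (2 * y ^ 2) = 2 * S := by field_simp
        linarith
    · exact (integrable_inv_one_add_sq.const_mul _).restrict
    · rw [MeasureTheory.ae_restrict_iff' measurableSet_Ioi]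
      have hne : ∀ᵐ y : ℝ ∂MeasureTheory.volume, y ≠ 1 := by
        simp [MeasureTheory.ae_iff, MeasureTheory.measure_singleton]
      filter_upwards [hne] with y hy1 hy
      have hy0 : (0 : ℝ) < y := hy
      rcases lt_or_gt_of_ne hy1 with h1 | h1
      · rw [Set.indicator_of_mem (show y ∈ Set.Iio (1 : ℝ) from h1)]
        have h2 : Tendsto (fun u : ℝ => y ^ u⁻¹) (𝓝[>] 0) (𝓝[>] 0) := by
          rw [tendsto_nhdsWithin_iff]
          refine ⟨(tendsto_rpow_atTop_of_base_lt_one y (by linarith) h1).comp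
            tendsto_inv_nhdsGT_zero, Eventually.of_forall fun u => ?_⟩
          exact Real.rpow_pos_of_pos hy0 _
        exact hGt.comp h2
      · rw [Set.indicator_of_notMem (show y ∉ Set.Iio (1 : ℝ) from not_lt.2 h1.le)]
        refine squeeze_zero_norm (a := fun u : ℝ => S * ((y⁻¹) ^ u⁻¹) ^ 2) (fun u => ?_) ?_
        · have h2 := hGS (y ^ u⁻¹) (Real.rpow_pos_of_pos hy0 _)
          rwa [← inv_pow, ← Real.inv_rpow hy0.le] at h2
        · have h2 : Tendsto (fun u : ℝ => (y⁻¹) ^ u⁻¹) (𝓝[>] 0) (𝓝 0) :=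
            (tendsto_rpow_atTop_of_base_lt_one y⁻¹
              (by have := inv_pos.2 hy0; linarith) (inv_lt_one_of_one_lt₀ h1)).comp
              tendsto_inv_nhdsGT_zero
          have h3 := (h2.pow 2).const_mul S
          simpa using h3
  have hmel : ∀ u : ℝ, 0 < u → LSeries b (1 + u) =
      ((2 * Real.pi : ℝ) : ℂ) ^ (1 + (u : ℂ)) / Complex.Gamma (1 + u) * mellin F (1 + u) := by
    intro u hu
    have hre : (1 + (u : ℂ)).re = 1 + u := by simp
    have hsum := hasSum_mellin (a := b) (p := fun n : ℕ => 2 * Real.pi * n) (F := F)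
      (s := 1 + (u : ℂ)) (fun n => by
        rcases Nat.eq_zero_or_pos n with rfl | hn
        · exact Or.inl hb0
        · right
          have hn' : (0 : ℝ) < (n : ℝ) := by exact_mod_cast hn
          positivity) (by rw [hre]; linarith)
      (fun t ht => by
        have h1 := (hsm t ht).hasSum
        rw [hF]
        refine h1.congr_fun ?_
        intro n
        congr 1
        push_cast
        congr 1
        ring)
      (by
        rw [hre]
        refine ((hb u hu).mul_left (((2 * Real.pi) ^ (1 + u))⁻¹)).congr ?_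
        intro n
        rw [Real.mul_rpow (by positivity) (Nat.cast_nonneg n), Real.rpow_neg (Nat.cast_nonneg n)]
        rw [div_eq_mul_inv, mul_inv]
        ring)
    have hG0 : Complex.Gamma (1 + u) ≠ 0 :=
      Complex.Gamma_ne_zero_of_re_pos (by rw [hre]; linarith)
    have hp0 : ((2 * Real.pi : ℝ) : ℂ) ^ (1 + (u : ℂ)) ≠ 0 := by
      rw [Ne, Complex.cpow_eq_zero_iff, not_and_or]
      left
      have := Real.pi_pos
      exact_mod_cast (by positivity : (2 * Real.pi : ℝ) ≠ 0)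
    have ht : mellin F (1 + u) = Complex.Gamma (1 + u) / ((2 * Real.pi : ℝ) : ℂ) ^ (1 + (u : ℂ)) *
        LSeries b (1 + u) := by
      rw [← hsum.tsum_eq]
      unfold LSeries
      rw [← tsum_mul_left]
      refine tsum_congr fun n => ?_
      rcases Nat.eq_zero_or_pos n with rfl | hn
      · rw [LSeries.term_zero, hb0, mul_zero, zero_div, mul_zero]
      · rw [LSeries.term_of_ne_zero hn.ne']
        have e1 : (((2 * Real.pi * (n : ℝ) : ℝ)) : ℂ) ^ (1 + (u : ℂ)) =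
            ((2 * Real.pi : ℝ) : ℂ) ^ (1 + (u : ℂ)) * (n : ℂ) ^ (1 + (u : ℂ)) := by
          have h1 := Complex.mul_cpow_ofReal_nonneg (a := 2 * Real.pi) (b := (n : ℝ))
            (by positivity) (Nat.cast_nonneg n) (1 + (u : ℂ))
          rw [← Complex.ofReal_mul] at h1
          rw [h1, Complex.ofReal_natCast]
        rw [e1]
        field_simp
    rw [ht]
    field_simp
  have hcf : Tendsto (fun u : ℝ => ((2 * Real.pi : ℝ) : ℂ) ^ (1 + (u : ℂ)) /
      Complex.Gamma (1 + u)) (𝓝[>] 0) (𝓝 (2 * Real.pi)) := by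
    have hb1 : ((2 * Real.pi : ℝ) : ℂ) ≠ 0 := by
      have := Real.pi_pos
      exact_mod_cast (by positivity : (2 * Real.pi : ℝ) ≠ 0)
    have hc1 : Continuous fun u : ℝ => (1 + (u : ℂ)) :=
      continuous_const.add Complex.continuous_ofReal
    have h1 : ContinuousAt (fun u : ℝ => ((2 * Real.pi : ℝ) : ℂ) ^ (1 + (u : ℂ))) 0 :=
      (hc1.continuousAt).const_cpow (Or.inl hb1)
    have h2 : ContinuousAt (fun u : ℝ => Complex.Gamma (1 + u)) 0 := by
      have h3 : ContinuousAt Complex.Gamma (1 + ((0 : ℝ) : ℂ)) := by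
        rw [Complex.ofReal_zero, add_zero]
        exact (Complex.differentiableAt_Gamma_one).continuousAt
      exact ContinuousAt.comp (g := Complex.Gamma) (f := fun u : ℝ => (1 + (u : ℂ))) h3
        hc1.continuousAt
    have h4 := h1.div h2 (by
      rw [Complex.ofReal_zero, add_zero, Complex.Gamma_one]
      exact one_ne_zero)
    have h5 := h4.tendsto.mono_left (nhdsWithin_le_nhds (s := Set.Ioi 0))
    have h6 : ((2 * Real.pi : ℝ) : ℂ) ^ (1 + ((0 : ℝ) : ℂ)) / Complex.Gamma (1 + ((0 : ℝ) : ℂ)) =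
        2 * Real.pi := by
      rw [Complex.ofReal_zero, add_zero, Complex.Gamma_one, Complex.cpow_one, div_one]
      push_cast
      ring
    rw [← h6]
    exact h5
  refine (hcf.mul hlim).congr' ?_
  filter_upwards [self_mem_nhdsWithin] with u hu
  rw [hmel u hu, ← key u hu]
  ring

end Pool.Agent.H97.ICW
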