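import Mathlib
import Pool.Agent.H13.IC.Cd

/-!
# [H97 ICW Cu] weight one: a nonzero constant term gives a pole at a rational point
(THEOREM IC, MP_8e9775_nt, chapter 6)

PROOF. `γ = (p q; r t)`. If `r = γ 1 0 = 0` then `t = ±1`, `sl 1 (fH U) γ τ = ± ev U (τ ± q)` tends to `0` as
`Im τ → ∞` (`GD.top`; as in `cusp_decay` of Cd.lean), so `κ = 0`: contradiction. So `r ≠ 0`. For `y > 0` let
`τ = -t/r + i/(r^2 y)` (imaginary part `1/(r^2 y) > 0`, `→ ∞` as `y → 0+`). Then `r τ + t = i/(r y)` and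
`γ τ = (p τ + q)/(r τ + t) = p/r - 1/(r (r τ + t)) = p/r + i y` (determinant one). So
`ev U (p/r + i y) = (r τ + t) * sl 1 (fH U) γ τ = (i/(r y)) * sl 1 (fH U) γ τ` (definition of `sl`, `fH`), and
`y * ev U (p/r + i y) = (i/r) * sl 1 (fH U) γ τ → (i/r) κ`. Take `x = p/r`, `κ' = i κ / r`.
-/

set_option autoImplicit false

namespace Pool.Agent.H97.ICW

open Complex PowerSeries UpperHalfPlane MatrixGroups Pool.Agent.H13.IC Filter Topology

private theorem cu_det (γ : SL(2, ℤ)) :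
    (γ 0 0 : ℂ) * (γ 1 1 : ℂ) - (γ 0 1 : ℂ) * (γ 1 0 : ℂ) = 1 := by
  have h1 := Matrix.SpecialLinearGroup.det_coe γ
  rw [Matrix.det_fin_two] at h1
  exact_mod_cast h1

private theorem cu_coe (γ : SL(2, ℤ)) (τ : ℍ) : ((γ • τ : ℍ) : ℂ) =
    ((γ 0 0 : ℂ) * τ + (γ 0 1 : ℂ)) / ((γ 1 0 : ℂ) * τ + (γ 1 1 : ℂ)) := by
  rw [coe_specialLinearGroup_apply]
  simp

private theorem cu_zero (U : PowerSeries ℂ) (hU : GD 1 U) (γ : SL(2, ℤ)) (hc : γ 1 0 = 0) :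
    ∃ C : ℝ, 0 < C ∧ ∀ τ : ℍ, 1 ≤ τ.im →
      ‖sl 1 (fH U) γ τ‖ ≤ C * Real.exp (-(2 * Real.pi * τ.im)) := by
  obtain ⟨C, hC, ht⟩ := hU.top
  refine ⟨C, hC, fun τ hy => ?_⟩
  have hdet : γ 0 0 * γ 1 1 = 1 := by
    have h1 := Matrix.SpecialLinearGroup.det_coe γ
    rw [Matrix.det_fin_two, hc, mul_zero, sub_zero] at h1
    exact h1
  have hd : |((γ 1 1 : ℤ) : ℝ)| = 1 := by
    have h2 : IsUnit (γ 1 1) := IsUnit.of_mul_eq_one_right _ hdet
    rcases Int.isUnit_iff.1 h2 with h3 | h3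
    · rw [h3]; simp
    · rw [h3]; simp
  have hD : ‖(γ 1 0 : ℂ) * τ + (γ 1 1 : ℂ)‖ = 1 := by
    rw [hc, Int.cast_zero, zero_mul, zero_add, Complex.norm_intCast, hd]
  have him : (γ • τ : ℍ).im = τ.im := by
    rw [im_sl, hD, one_pow, div_one]
  have h2 : ‖sl 1 (fH U) γ τ‖ = ‖ev U ((γ • τ : ℍ) : ℂ)‖ := by
    unfold sl
    rw [norm_div, norm_pow, hD, one_pow, div_one]
    rfl
  have e0 : (((γ • τ : ℍ) : ℂ)).im = τ.im := him
  have h3 := ht ((γ • τ : ℍ) : ℂ) (by rw [e0]; linarith)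
  rw [h2]
  rwa [e0] at h3

private theorem cu_exp {c : ℝ} (hc : 0 < c) (C : ℝ) :
    Tendsto (fun y : ℝ => C * Real.exp (-(c * y))) atTop (𝓝 0) := by
  have h1 : Tendsto (fun y : ℝ => c * y) atTop atTop := tendsto_id.const_mul_atTop hc
  have h2 := (Real.tendsto_exp_neg_atTop_nhds_zero.comp h1).const_mul C
  rw [mul_zero] at h2
  exact h2

theorem cusp_pole (U : PowerSeries ℂ) (hU : GD 1 U) (γ : SL(2, ℤ)) (κ : ℂ) (hκ : κ ≠ 0) (C c : ℝ)
    (hc : 0 < c)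
    (h : ∀ τ : ℍ, 1 ≤ τ.im → ‖sl 1 (fH U) γ τ - κ‖ ≤ C * Real.exp (-(c * τ.im))) :
    ∃ (x : ℚ) (κ' : ℂ), κ' ≠ 0 ∧
      Tendsto (fun y : ℝ => (y : ℂ) * ev U ((x : ℂ) + y * Complex.I)) (𝓝[>] 0) (𝓝 κ') := by
  by_cases hr : γ 1 0 = 0
  · exfalso
    obtain ⟨C', hC', h'⟩ := cu_zero U hU γ hr
    have h1 : Tendsto (fun y : ℝ => C * Real.exp (-(c * y)) +
        C' * Real.exp (-(2 * Real.pi * y))) atTop (𝓝 0) := by
      have h2 := (cu_exp hc C).add (cu_exp (by positivity : 0 < 2 * Real.pi) C')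
      rw [add_zero] at h2
      exact h2
    have h3 : ∀ᶠ y : ℝ in atTop, ‖κ‖ ≤ C * Real.exp (-(c * y)) +
        C' * Real.exp (-(2 * Real.pi * y)) := by
      filter_upwards [eventually_ge_atTop (1 : ℝ)] with y hy
      have hy0 : 0 < y := by linarith
      obtain ⟨τ, hτ⟩ : ∃ τ : ℍ, τ.im = y := ⟨⟨y * Complex.I, by simpa using hy0⟩, by
        change (y * Complex.I : ℂ).im = y
        simp⟩
      have h4 := h τ (by rw [hτ]; exact hy)
      have h5 := h' τ (by rw [hτ]; exact hy)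
      rw [hτ] at h4 h5
      have h6 : ‖κ‖ ≤ ‖sl 1 (fH U) γ τ - κ‖ + ‖sl 1 (fH U) γ τ‖ := by
        have h7 := norm_sub_le (sl 1 (fH U) γ τ) (sl 1 (fH U) γ τ - κ)
        rw [sub_sub_cancel] at h7
        linarith
      linarith
    have h8 := ge_of_tendsto h1 h3
    exact hκ (norm_le_zero_iff.1 h8)
  · have hrC : (γ 1 0 : ℂ) ≠ 0 := by exact_mod_cast hr
    have hrR : ((γ 1 0 : ℤ) : ℝ) ≠ 0 := by exact_mod_cast hr
    have hr2 : (0 : ℝ) < ((γ 1 0 : ℤ) : ℝ) ^ 2 := by positivity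
    refine ⟨(γ 0 0 : ℚ) / (γ 1 0 : ℚ), Complex.I * κ / (γ 1 0 : ℂ),
      div_ne_zero (mul_ne_zero Complex.I_ne_zero hκ) hrC, ?_⟩
    obtain ⟨w, hw⟩ : ∃ w : ℝ → ℂ, w = fun y : ℝ => -(γ 1 1 : ℂ) / (γ 1 0 : ℂ) +
      Complex.I / ((γ 1 0 : ℂ) ^ 2 * y) := ⟨_, rfl⟩
    have hwim : ∀ y : ℝ, (w y).im = 1 / (((γ 1 0 : ℤ) : ℝ) ^ 2 * y) := by
      intro y
      have e1 : w y = (((-((γ 1 1 : ℤ) : ℝ) / ((γ 1 0 : ℤ) : ℝ) : ℝ)) : ℂ) +
          ((1 / (((γ 1 0 : ℤ) : ℝ) ^ 2 * y) : ℝ) : ℂ) * Complex.I := by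
        rw [hw]
        push_cast
        ring
      rw [e1]
      simp only [Complex.add_im, Complex.ofReal_im, Complex.mul_im, Complex.ofReal_re,
        Complex.I_im, Complex.I_re]
      ring
    have hpos : ∀ y : ℝ, 0 < y → 0 < (w y).im := by
      intro y hy
      rw [hwim]
      positivity
    have hsl : Tendsto (fun y : ℝ => sl 1 (fH U) γ (ofComplex (w y))) (𝓝[>] 0) (𝓝 κ) := by
      rw [tendsto_iff_norm_sub_tendsto_zero]
      have h1 : Tendsto (fun y : ℝ => (w y).im) (𝓝[>] 0) atTop := by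
        have h2 : Tendsto (fun y : ℝ => 1 / ((γ 1 0 : ℤ) : ℝ) ^ 2 * y⁻¹) (𝓝[>] 0) atTop :=
          tendsto_inv_nhdsGT_zero.const_mul_atTop (by positivity)
        refine h2.congr fun y => ?_
        rw [hwim]
        field_simp
      have h2 := (cu_exp hc C).comp h1
      have h3 : ∀ᶠ y : ℝ in 𝓝[>] 0, 1 ≤ (w y).im := h1.eventually_ge_atTop 1
      refine squeeze_zero' (Eventually.of_forall fun y => norm_nonneg _) ?_ h2
      filter_upwards [h3] with y hy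
      have hy0 : 0 < (w y).im := by linarith
      have h4 := h (ofComplex (w y)) (by
        rw [ofComplex_apply_of_im_pos hy0]
        exact hy)
      have h5 : (ofComplex (w y)).im = (w y).im := by
        rw [ofComplex_apply_of_im_pos hy0]
        rfl
      rw [h5] at h4
      exact h4
    have hmul := hsl.const_mul (Complex.I / (γ 1 0 : ℂ))
    have e3 : Complex.I / (γ 1 0 : ℂ) * κ = Complex.I * κ / (γ 1 0 : ℂ) := by ring
    rw [e3] at hmul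
    refine hmul.congr' ?_
    filter_upwards [self_mem_nhdsWithin] with y hy
    have hy0 : (0 : ℝ) < y := hy
    have hyC : (y : ℂ) ≠ 0 := by exact_mod_cast hy0.ne'
    have hD : (γ 1 0 : ℂ) * ((ofComplex (w y) : ℍ) : ℂ) + (γ 1 1 : ℂ) =
        Complex.I / ((γ 1 0 : ℂ) * y) := by
      rw [ofComplex_apply_of_im_pos (hpos y hy0)]
      change (γ 1 0 : ℂ) * w y + (γ 1 1 : ℂ) = _
      rw [hw]
      field_simp
      ring
    have hN : (γ 0 0 : ℂ) * ((ofComplex (w y) : ℍ) : ℂ) + (γ 0 1 : ℂ) =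
        (-1 + (γ 0 0 : ℂ) * (Complex.I / ((γ 1 0 : ℂ) * y))) / (γ 1 0 : ℂ) := by
      rw [← hD]
      have h7 := cu_det γ
      field_simp
      linear_combination (-1 : ℂ) * h7
    have hG : ((γ • (ofComplex (w y) : ℍ) : ℍ) : ℂ) =
        (((γ 0 0 : ℚ) / (γ 1 0 : ℚ) : ℚ) : ℂ) + y * Complex.I := by
      rw [cu_coe, hD, hN]
      push_cast
      field_simp
      ring_nf
      rw [Complex.I_sq]
      ring
    have hS : sl 1 (fH U) γ (ofComplex (w y)) =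
        ev U ((((γ 0 0 : ℚ) / (γ 1 0 : ℚ) : ℚ) : ℂ) + y * Complex.I) /
          (Complex.I / ((γ 1 0 : ℂ) * y)) := by
      unfold sl
      rw [pow_one, hD, ← hG]
      rfl
    rw [hS]
    field_simp

end Pool.Agent.H97.ICW
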