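import Mathlib
import Pool.Agent.H97.ICW.Cu
import Pool.Agent.H97.ICW.Ab
import Pool.Agent.H11.PC.Defs
import Pool.Agent.H13.IC.Hd

/-!
# [H97 ICW Po] weight one: a nonzero constant term gives a pole of an additive twist
(THEOREM IC, MP_8e9775_nt, chapter 6)

PROOF. `cusp_pole`: `x`, `κ'`. With `U = dil b (fser 1 a)`: `ev U z = ev (fser 1 a) (b z) =
∑_{n ≥ 1} a n e(n b z)` (`ev_dil`, `fser_cvg`; for `k = 1` the factor `n ^ ((1-1)/2)` is `1`). Put `z = x + i y`,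
`y = t/b`: `t * ∑ a n e(n b x) exp(-(2 π n t)) = b (y ev U (x + i y)) → b κ'` as `t → 0+`. Write
`e(n b x) = exp(-(2 π n β I))`, `β = -(b x)`; add an integer to `β` so that it is `A0/M`, `M ≥ 1`, `A0 ≥ 1` coprime
to `M` (`β + j`, `j` large; `Rat.num`, `Rat.den`; the exponentials are unchanged since `n j` is an integer).
`abel` with `b' n = a n exp(-(2 π n β I))` (and `0` at `n = 0`; `LSeries` ignores `n = 0`): summability from
`ha` with exponent `u/2`. `Es a β s = LSeries (..) s` (Pool/Agent/H11/PC/Defs.lean).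
-/

set_option autoImplicit false

namespace Pool.Agent.H97.ICW

open Complex PowerSeries UpperHalfPlane MatrixGroups Pool.Agent.H13.IC Filter Topology
open Pool.Agent.H11.PC

private theorem po_coeff (a : ℕ → ℂ) (n : ℕ) :
    PowerSeries.coeff n (fser 1 a) = if n = 0 then 0 else a n := by
  rw [fser, PowerSeries.coeff_mk]
  by_cases h : n = 0
  · rw [if_pos h, if_pos h]
  · rw [if_neg h, if_neg h, Nat.cast_one, sub_self, zero_div, Complex.cpow_zero, mul_one]

private theorem po_exp (x β t : ℝ) (n j : ℕ) (h : x = (j : ℝ) - β) :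
    ee ((x : ℂ) + t * Complex.I) ^ n =
      cexp (-(2 * (Real.pi : ℂ) * n * β * Complex.I)) * cexp (-(2 * Real.pi * n * t)) := by
  rw [ee, ← Complex.exp_nat_mul, ← Complex.exp_add]
  have h1 : (n : ℂ) * (2 * Real.pi * Complex.I * ((x : ℂ) + t * Complex.I)) =
      (-(2 * (Real.pi : ℂ) * n * β * Complex.I) + -(2 * Real.pi * n * t)) +
        ((n * j : ℕ) : ℂ) * (2 * Real.pi * Complex.I) := by
    rw [h]
    push_cast
    linear_combination (2 * (n : ℂ) * Real.pi * t) * Complex.I_sq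
  rw [h1, Complex.exp_add]
  have h2 : cexp (((n * j : ℕ) : ℂ) * (2 * Real.pi * Complex.I)) = 1 := Complex.exp_nat_mul_two_pi_mul_I _
  rw [h2, mul_one]

theorem twist_pole (b : ℕ) (hb : 1 ≤ b) (a : ℕ → ℂ)
    (ha : ∀ δ : ℝ, 0 < δ → ∃ C : ℝ, ∀ n : ℕ, 1 ≤ n → ‖a n‖ ≤ C * (n : ℝ) ^ δ)
    (hU : GD 1 (dil b (fser 1 a))) (γ : SL(2, ℤ)) (κ : ℂ) (hκ : κ ≠ 0) (C c : ℝ) (hc : 0 < c)
    (h : ∀ τ : ℍ, 1 ≤ τ.im →
      ‖sl 1 (fH (dil b (fser 1 a))) γ τ - κ‖ ≤ C * Real.exp (-(c * τ.im))) :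
    ∃ (M A0 : ℕ) (w : ℂ), 1 ≤ M ∧ 1 ≤ A0 ∧ Nat.Coprime A0 M ∧ w ≠ 0 ∧
      Tendsto (fun u : ℝ => (u : ℂ) * Es a ((A0 : ℝ) / (M : ℝ)) (1 + u)) (𝓝[>] 0) (𝓝 w) := by
  obtain ⟨x, κ', hκ', hx⟩ := cusp_pole _ hU γ κ hκ C c hc h
  obtain ⟨j, hj⟩ := exists_nat_gt ((b : ℚ) * x)
  have hb0 : (0 : ℝ) < b := by exact_mod_cast hb
  have hbC : (b : ℂ) ≠ 0 := by exact_mod_cast hb0.ne'
  set r : ℚ := (j : ℚ) - b * x with hr
  have hr0 : 0 < r := by rw [hr]; linarith
  have hnum : 0 < r.num := Rat.num_pos.2 hr0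
  have hβ : ((r.num.natAbs : ℕ) : ℝ) / ((r.den : ℕ) : ℝ) = (r : ℝ) := by
    have h1 : ((r.num.natAbs : ℕ) : ℝ) = ((r.num : ℤ) : ℝ) := by
      have h2 : ((r.num.natAbs : ℕ) : ℤ) = r.num := Int.natAbs_of_nonneg hnum.le
      calc ((r.num.natAbs : ℕ) : ℝ) = (((r.num.natAbs : ℕ) : ℤ) : ℝ) := (Int.cast_natCast _).symm
        _ = ((r.num : ℤ) : ℝ) := by rw [h2]
    rw [h1]
    exact (Rat.cast_def r).symm
  have hbx : (b : ℝ) * (x : ℝ) = (j : ℝ) - ((r : ℚ) : ℝ) := by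
    rw [hr]
    push_cast
    ring
  set b' : ℕ → ℂ := fun n => if n = 0 then 0 else
    a n * cexp (-(2 * (Real.pi : ℂ) * n * ((r : ℝ) : ℂ) * Complex.I)) with hb'
  have hb'0 : b' 0 = 0 := by rw [hb']; simp
  have hsum : ∀ u : ℝ, 0 < u → Summable (fun n : ℕ => ‖b' n‖ * (n : ℝ) ^ (-(1 + u))) := by
    intro u hu
    obtain ⟨D, hD⟩ := ha (u / 2) (by linarith)
    have h1 : Summable fun n : ℕ => |D| * (n : ℝ) ^ (-(1 + u / 2)) :=
      (Real.summable_nat_rpow.2 (by linarith)).mul_left _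
    refine Summable.of_nonneg_of_le (fun n => by positivity) (fun n => ?_) h1
    rcases Nat.eq_zero_or_pos n with h0 | h0
    · subst h0
      rw [hb'0, norm_zero, zero_mul]
      positivity
    · have hn0 : (0 : ℝ) < n := by exact_mod_cast h0
      have h2 : ‖b' n‖ = ‖a n‖ := by
        rw [hb']
        simp only
        rw [if_neg h0.ne', norm_mul]
        have h3 : (-(2 * (Real.pi : ℂ) * n * ((r : ℝ) : ℂ) * Complex.I)) =
            ((-(2 * Real.pi * n * (r : ℝ)) : ℝ) : ℂ) * Complex.I := by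
          push_cast
          ring
        rw [h3, Complex.norm_exp_ofReal_mul_I, mul_one]
      have h4 : ‖a n‖ ≤ |D| * (n : ℝ) ^ (u / 2) :=
        (hD n h0).trans (mul_le_mul_of_nonneg_right (le_abs_self D) (Real.rpow_nonneg hn0.le _))
      rw [h2]
      calc ‖a n‖ * (n : ℝ) ^ (-(1 + u)) ≤ (|D| * (n : ℝ) ^ (u / 2)) * (n : ℝ) ^ (-(1 + u)) :=
            mul_le_mul_of_nonneg_right h4 (Real.rpow_nonneg hn0.le _)
        _ = |D| * (n : ℝ) ^ (-(1 + u / 2)) := by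
            rw [mul_assoc, ← Real.rpow_add hn0]
            congr 2
            ring
  have hlim : Tendsto (fun y : ℝ => (y : ℂ) * ∑' n : ℕ, b' n * Complex.exp (-(2 * Real.pi * n * y)))
      (𝓝[>] 0) (𝓝 ((b : ℂ) * κ')) := by
    have h1 : Tendsto (fun t : ℝ => t / b) (𝓝[>] 0) (𝓝[>] 0) := by
      rw [tendsto_nhdsWithin_iff]
      constructor
      · have h2 : Tendsto (fun t : ℝ => t / b) (𝓝 0) (𝓝 (0 / (b : ℝ))) :=
          tendsto_id.div_const _
        rw [zero_div] at h2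
        exact h2.mono_left nhdsWithin_le_nhds
      · filter_upwards [self_mem_nhdsWithin] with t ht
        exact div_pos ht hb0
    have h3 := (hx.comp h1).const_mul (b : ℂ)
    refine h3.congr' ?_
    filter_upwards [self_mem_nhdsWithin] with t ht
    have ht0 : (0 : ℝ) < t := ht
    simp only [Function.comp_apply]
    have him : 0 < ((x : ℂ) + ((t / b : ℝ) : ℂ) * Complex.I).im := by
      rw [Complex.add_im, Complex.im_ofReal_mul, Complex.I_im, mul_one]
      have : ((x : ℚ) : ℂ).im = 0 := by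
        rw [← Complex.ofReal_ratCast, Complex.ofReal_im]
      rw [this, zero_add]
      exact div_pos ht0 hb0
    rw [ev_dil (fser_cvg 1 a ha) b hb him]
    have h4 : (b : ℂ) * ((x : ℂ) + ((t / b : ℝ) : ℂ) * Complex.I) =
        (((b : ℝ) * (x : ℝ) : ℝ) : ℂ) + (t : ℂ) * Complex.I := by
      push_cast
      field_simp
    rw [h4, ev, evq]
    have h5 : ∀ n : ℕ, PowerSeries.coeff n (fser 1 a) *
        ee ((((b : ℝ) * (x : ℝ) : ℝ) : ℂ) + (t : ℂ) * Complex.I) ^ n =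
        b' n * Complex.exp (-(2 * Real.pi * n * t)) := by
      intro n
      rw [po_coeff, po_exp _ (r : ℝ) t n j hbx, hb']
      simp only
      by_cases hn : n = 0
      · rw [if_pos hn, if_pos hn, zero_mul, zero_mul]
      · rw [if_neg hn, if_neg hn]
        exact (mul_assoc _ _ _).symm
    rw [tsum_congr h5, ← mul_assoc]
    congr 1
    push_cast
    field_simp
  have hA := abel b' hb'0 hsum _ hlim
  refine ⟨r.den, r.num.natAbs, 2 * Real.pi * ((b : ℂ) * κ'), r.den_pos, ?_, r.reduced, ?_, ?_⟩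
  · exact Nat.one_le_iff_ne_zero.2 (Int.natAbs_ne_zero.2 hnum.ne')
  · refine mul_ne_zero (mul_ne_zero two_ne_zero ?_) (mul_ne_zero hbC hκ')
    exact_mod_cast Real.pi_ne_zero
  · refine hA.congr fun u => ?_
    rw [Es, hβ]
    congr 1
    refine LSeries_congr (fun {n} hn => ?_) _
    rw [hb']
    simp only
    rw [if_neg hn]

end Pool.Agent.H97.ICW
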