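import Mathlib
import Pool.Agent.H97.ICB.Fj1
import Pool.Agent.H97.ICW.Up
import Pool.Agent.H97.ICW.Ca
import Pool.Agent.H97.ICW.Po
import Pool.Agent.H97.ICW.Nz
import Pool.Agent.H97.ICW.Fe
import Pool.Agent.H11.SC6.PrimDef
import Pool.Agent.H11.PE.FINL
import Pool.Agent.H11.PI.FINI

/-!
# [H97 ICW Wo] THEOREM IC in weight one (MP_8e9775_nt, chapter 6): assembly

PROOF. `a = acl 1 A σ`, `b = N.den`, `U = dil b (fser 1 a)`. `feq_of_entire` (k = 1), `orbit_of3` (Fj1.lean):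
the orbit of `U` is finite. `GD_dil`, `dil_ne`. Case 1: every `h` in the orbit has `κ = 0` in `cusp_const`:
`rs_of_decay`, and then as in `formula_of` of Pool/Agent/H13/IC/Fj.lean (copy it with `k = 1`: `DU_dil`,
`equivalence`, (3) implies (1)). Case 2: some `h = sl 1 (fH U) γ` has `κ ≠ 0`: `twist_pole`, `upD` with
`DU_dil` (`DU 1 U s = b^(-(s)) ∑ ‖a n‖^2/n^s`, `b^(-s) ≥ b^(-2)`): the hypothesis of `T_le`; `pair_or_all`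
(FINI.lean; `Q = sqrt N/(2π)`, one Gamma factor with `lam = 1`, `mu = 0`; the conductor is
`(2π)^2 Q^2 * 1 = N`, rational): not a Dirichlet pair since `F` is primitive (`pair_not`, FINL.lean: a pair
is not primitive), so `NotPretentious a`, and `no_pole` gives `False`.
-/

set_option autoImplicit false

namespace Pool.Agent.H97.ICW

open Complex NumberField UpperHalfPlane MatrixGroups Pool.Agent.H11.Selberg Pool.Agent.H11.SC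
open Pool.Agent.H13.IC Pool.Agent.H97.ICB

theorem formula_of_rs (b : ℕ) (hb : 1 ≤ b) (a : ℕ → ℂ) (F : ℂ → ℂ) (hS : IsSelberg a F)
    (hRS : ∃ c C : ℝ, 0 < c ∧ ∀ s : ℝ, 1 < s → s ≤ 2 →
      c * (s - 1) ^ (-(1 : ℝ)) ≤ DU 1 (dil b (fser 1 a)) s ∧
      DU 1 (dil b (fser 1 a)) s ≤ C * (s - 1) ^ (-(1 : ℝ))) :
    ∃ C : ℝ, ∀ x : ℝ, 2 ≤ x → |S a x - Real.log (Real.log x)| ≤ C := by
  obtain ⟨c, C, hc, hRS⟩ := hRS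
  obtain ⟨e, θ, Cb, hθ, hbb, hE⟩ := hS.euler
  have hT := equivalence a F e 1 hS ⟨θ, Cb, hθ, hbb, hE⟩ zero_le_one
  have hd0 : (0 : ℝ) < (b : ℝ) := by exact_mod_cast hb
  have hd1 : (1 : ℝ) ≤ (b : ℝ) := by exact_mod_cast hb
  have h3 : ∃ c C : ℝ, 0 < c ∧ ∀ s : ℝ, 1 < s → s ≤ 2 →
      c * (s - 1) ^ (-(1 : ℝ)) ≤ ∑' n : ℕ, ‖a n‖ ^ 2 / (n : ℝ) ^ s ∧
      ∑' n : ℕ, ‖a n‖ ^ 2 / (n : ℝ) ^ s ≤ C * (s - 1) ^ (-(1 : ℝ)) := by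
    refine ⟨c, (b : ℝ) ^ (2 : ℝ) * C, hc, fun s hs1 hs2 => ?_⟩
    obtain ⟨h4, h5⟩ := hRS s hs1 hs2
    rw [DU_dil 1 le_rfl b hb _ s hs1] at h4 h5
    have hD0 : (0 : ℝ) ≤ ∑' n : ℕ, ‖a n‖ ^ 2 / (n : ℝ) ^ s :=
      tsum_nonneg fun n => by positivity
    have hp1 : (b : ℝ) ^ (-(s + (1 : ℕ) - 1)) ≤ 1 :=
      Real.rpow_le_one_of_one_le_of_nonpos hd1 (by push_cast; linarith)
    have hp2 : 1 ≤ (b : ℝ) ^ (2 : ℝ) * (b : ℝ) ^ (-(s + (1 : ℕ) - 1)) := by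
      rw [← Real.rpow_add hd0]
      exact Real.one_le_rpow hd1 (by push_cast; linarith)
    refine ⟨h4.trans (mul_le_of_le_one_left hD0 hp1), ?_⟩
    calc ∑' n : ℕ, ‖a n‖ ^ 2 / (n : ℝ) ^ s
        ≤ ((b : ℝ) ^ (2 : ℝ) * (b : ℝ) ^ (-(s + (1 : ℕ) - 1))) *
          ∑' n : ℕ, ‖a n‖ ^ 2 / (n : ℝ) ^ s := le_mul_of_one_le_left hD0 hp2
      _ = (b : ℝ) ^ (2 : ℝ) * ((b : ℝ) ^ (-(s + (1 : ℕ) - 1)) *
          ∑' n : ℕ, ‖a n‖ ^ 2 / (n : ℝ) ^ s) := by ring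
      _ ≤ (b : ℝ) ^ (2 : ℝ) * (C * (s - 1) ^ (-(1 : ℝ))) :=
          mul_le_mul_of_nonneg_left h5 (Real.rpow_nonneg hd0.le _)
      _ = (b : ℝ) ^ (2 : ℝ) * C * (s - 1) ^ (-(1 : ℝ)) := by ring
  obtain ⟨C', hC'⟩ := (hT.out 2 0).mp h3
  refine ⟨C', fun x hx => ?_⟩
  have h6 := hC' x hx
  rwa [one_mul] at h6

theorem dir_of_DU (b : ℕ) (hb : 1 ≤ b) (a : ℕ → ℂ) (C : ℝ) (hC : 0 < C)
    (h : ∀ s : ℝ, 1 < s → s ≤ 2 → DU 1 (dil b (fser 1 a)) s ≤ C * (s - 1) ^ (-(2 : ℝ))) :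
    ∃ C : ℝ, 0 < C ∧ ∀ s : ℝ, 1 < s → s ≤ 2 →
      ∑' n : ℕ, ‖a n‖ ^ 2 / (n : ℝ) ^ s ≤ C * (s - 1) ^ (-(2 : ℝ)) := by
  have hd0 : (0 : ℝ) < (b : ℝ) := by exact_mod_cast hb
  have hd1 : (1 : ℝ) ≤ (b : ℝ) := by exact_mod_cast hb
  refine ⟨(b : ℝ) ^ (2 : ℝ) * C, mul_pos (Real.rpow_pos_of_pos hd0 _) hC, fun s hs1 hs2 => ?_⟩
  have h5 := h s hs1 hs2
  rw [DU_dil 1 le_rfl b hb _ s hs1] at h5
  have hD0 : (0 : ℝ) ≤ ∑' n : ℕ, ‖a n‖ ^ 2 / (n : ℝ) ^ s :=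
    tsum_nonneg fun n => by positivity
  have hp2 : 1 ≤ (b : ℝ) ^ (2 : ℝ) * (b : ℝ) ^ (-(s + (1 : ℕ) - 1)) := by
    rw [← Real.rpow_add hd0]
    exact Real.one_le_rpow hd1 (by push_cast; linarith)
  calc ∑' n : ℕ, ‖a n‖ ^ 2 / (n : ℝ) ^ s
      ≤ ((b : ℝ) ^ (2 : ℝ) * (b : ℝ) ^ (-(s + (1 : ℕ) - 1))) *
        ∑' n : ℕ, ‖a n‖ ^ 2 / (n : ℝ) ^ s := le_mul_of_one_le_left hD0 hp2
    _ = (b : ℝ) ^ (2 : ℝ) * ((b : ℝ) ^ (-(s + (1 : ℕ) - 1)) *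
        ∑' n : ℕ, ‖a n‖ ^ 2 / (n : ℝ) ^ s) := by ring
    _ ≤ (b : ℝ) ^ (2 : ℝ) * (C * (s - 1) ^ (-(2 : ℝ))) :=
        mul_le_mul_of_nonneg_left h5 (Real.rpow_nonneg hd0.le _)
    _ = (b : ℝ) ^ (2 : ℝ) * C * (s - 1) ^ (-(2 : ℝ)) := by ring

theorem weight_one {L : Type} [Field L] [NumberField L] (σ : L →+* ℂ) (N : ℚ) (hN : 0 < N)
    (A : ℕ → L) (m : ℕ) (hm : 1 ≤ m) (hA : ∀ n, 1 ≤ n → IsIntegral ℤ ((m : L) * A n))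
    (hs : Sub A) (F : ℂ → ℂ) (ε : ℂ)
    (hS : IsSelberg (acl 1 A σ) F) (hprim : IsPrimitive (acl 1 A σ) F)
    (hent : ∃ G : ℂ → ℂ, Differentiable ℂ G ∧ ∀ s, s ≠ 1 → G s = F s) (hε : ‖ε‖ = 1)
    (hfe : ∀ s : ℂ, 0 < s.re → s.re < 1 →
      completed (Real.sqrt N / (2 * Real.pi)) (fun _ : Fin 1 => (1 : ℝ))
          (fun _ => (((1 : ℕ) : ℂ) - 1) / 2) F s =
        ε * (starRingEnd ℂ) (completed (Real.sqrt N / (2 * Real.pi))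
          (fun _ : Fin 1 => (1 : ℝ)) (fun _ => (((1 : ℕ) : ℂ) - 1) / 2) F
          (1 - (starRingEnd ℂ) s))) :
    ∃ C : ℝ, ∀ x : ℝ, 2 ≤ x → |S (acl 1 A σ) x - Real.log (Real.log x)| ≤ C := by
  have hN' : (0 : ℝ) < (N : ℝ) := by exact_mod_cast hN
  have hb : 1 ≤ N.den := N.den_pos
  obtain ⟨G, hG, hGF⟩ := hent
  have hFE := feq_of_entire 1 le_rfl N hN' (acl 1 A σ) F ε hS hε G hG hGF hfe
  have hO := orbit_of3 σ 1 le_rfl N hN A m hm hA hs G ε hFE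
  have hGD := GD_dil 1 le_rfl N.den hb (acl 1 A σ) hS.ramanujan
  have hne := dil_ne 1 N.den hb (acl 1 A σ) hS.one
  by_cases hcase : ∃ (h : ℍ → ℂ) (κ : ℂ) (C c : ℝ),
      h ∈ Set.range (sl 1 (fH (dil N.den (fser 1 (acl 1 A σ))))) ∧ κ ≠ 0 ∧ 0 < c ∧
      ∀ τ : ℍ, 1 ≤ τ.im → ‖h τ - κ‖ ≤ C * Real.exp (-(c * τ.im))
  · exfalso
    obtain ⟨h, κ, C, c, ⟨γ, rfl⟩, hκ, hc, hb1⟩ := hcase
    obtain ⟨M, A0, w, hM, hA0, hcop, hw, hlim⟩ :=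
      twist_pole N.den hb (acl 1 A σ) hS.ramanujan hGD γ κ hκ C c hc hb1
    obtain ⟨C1, hC1, hup⟩ := upD _ hGD hO
    obtain ⟨C2, hC2, hdir⟩ := dir_of_DU N.den hb (acl 1 A σ) C1 hC1 hup
    obtain ⟨K, hK, hT⟩ := T_le (acl 1 A σ) F hS C2 hC2 hdir
    have hpi : (0 : ℝ) < 2 * Real.pi := by positivity
    have hpn := Pool.Agent.H11.PI.pair_or_all (acl 1 A σ) F hS G hG hGF (Real.sqrt N / (2 * Real.pi)) 1
      (fun _ : Fin 1 => (1 : ℝ)) (fun _ => (((1 : ℕ) : ℂ) - 1) / 2) ε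
      (div_pos (Real.sqrt_pos.mpr hN') hpi) (fun _ => one_pos) (fun _ => by simp) hε hfe
      (by simp) (Or.inl ⟨N, by
        have h1 : (2 * Real.pi) ^ 2 * (Real.sqrt N / (2 * Real.pi)) ^ 2 = (N : ℝ) := by
          rw [div_pow, Real.sq_sqrt hN'.le]
          field_simp
        rw [h1]
        simp⟩)
    rcases hpn with hP | hP
    · exact (Pool.Agent.H11.PE.pair_not (acl 1 A σ) F hS hP).2.1 hprim
    · exact no_pole (acl 1 A σ) F hS hP K hT M A0 w hM hA0 hcop hw hlim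
  · refine formula_of_rs N.den hb (acl 1 A σ) F hS (rs_of_decay _ hGD hO hne ?_)
    intro h hh
    obtain ⟨κ, C, c, hC, hc, hb1⟩ := cusp_const _ hGD hO h hh
    by_cases hκ : κ = 0
    · subst hκ
      exact ⟨C, c, hC, hc, fun τ hτ => by simpa using hb1 τ hτ⟩
    · exact absurd ⟨h, κ, C, c, hh, hκ, hc, hb1⟩ hcase

end Pool.Agent.H97.ICW
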